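import Pool.Agent.Helper73.KT.Core

/-!
# Two dual three-dimensional parts with a unit eigenvalue each
-/

open Module

namespace Pool.Agent.Helper73.HD

open Pool.Agent.Helper73.KT

section dual

variable {L W W' : Type*} [Field L] [AddCommGroup W] [Module L W] [AddCommGroup W'] [Module L W']
    {T : End L W} {T' : End L W'} {b : W →ₗ[L] W' →ₗ[L] L} {c : L}

theorem orth_aux (hb : ∀ x y, b (T x) (T' y) = c * b x y) {a a' : L} (hne : a * a' ≠ c) :
    ∀ (N n n' : ℕ), n + n' ≤ N → ∀ (x : W) (y : W'), ((T - a • 1) ^ n) x = 0 →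
      ((T' - a' • 1) ^ n') y = 0 → b x y = 0 := by
  intro N
  induction N with
  | zero =>
    intro n n' h x y hx _
    have : n = 0 := by omega
    subst this
    rw [pow_zero, End.one_apply] at hx
    rw [hx, map_zero, LinearMap.zero_apply]
  | succ N ih =>
    intro n n' h x y hx hy
    rcases Nat.eq_zero_or_pos n with hn | hn
    · subst hn
      rw [pow_zero, End.one_apply] at hx
      rw [hx, map_zero, LinearMap.zero_apply]
    rcases Nat.eq_zero_or_pos n' with hn' | hn'
    · subst hn'
      rw [pow_zero, End.one_apply] at hy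
      rw [hy, map_zero]
    obtain ⟨m, rfl⟩ := Nat.exists_eq_succ_of_ne_zero hn.ne'
    obtain ⟨m', rfl⟩ := Nat.exists_eq_succ_of_ne_zero hn'.ne'
    set x1 := (T - a • 1) x with hx1
    set y1 := (T' - a' • 1) y with hy1
    have hx1' : ((T - a • 1) ^ m) x1 = 0 := by
      rw [hx1, ← End.mul_apply, ← pow_succ]; exact hx
    have hy1' : ((T' - a' • 1) ^ m') y1 = 0 := by
      rw [hy1, ← End.mul_apply, ← pow_succ]; exact hy
    have e1 : b x1 y = 0 := ih m (m' + 1) (by omega) x1 y hx1' hy
    have e2 : b x y1 = 0 := ih (m + 1) m' (by omega) x y1 hx hy1'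
    have e3 : b x1 y1 = 0 := ih m m' (by omega) x1 y1 hx1' hy1'
    have hTx : T x = a • x + x1 := by
      rw [hx1, LinearMap.sub_apply, LinearMap.smul_apply, End.one_apply]; abel
    have hTy : T' y = a' • y + y1 := by
      rw [hy1, LinearMap.sub_apply, LinearMap.smul_apply, End.one_apply]; abel
    have h1 := hb x y
    rw [hTx, hTy] at h1
    simp only [map_add, map_smul, LinearMap.add_apply, LinearMap.smul_apply, smul_eq_mul, e1, e2,
      e3, add_zero, mul_zero] at h1
    have h2 : (a * a' - c) * b x y = 0 := by linear_combination h1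
    exact (mul_eq_zero.1 h2).resolve_left (sub_ne_zero.2 hne)

theorem orth (hb : ∀ x y, b (T x) (T' y) = c * b x y) {a a' : L} (hne : a * a' ≠ c)
    {x : W} {y : W'} (hx : x ∈ T.maxGenEigenspace a) (hy : y ∈ T'.maxGenEigenspace a') :
    b x y = 0 := by
  rw [End.mem_maxGenEigenspace] at hx hy
  obtain ⟨n, hn⟩ := hx
  obtain ⟨n', hn'⟩ := hy
  exact orth_aux hb hne (n + n') n n' le_rfl x y hn hn'

/-- the multiplicities of dual eigenvalues -/
theorem mult_le [IsAlgClosed L] [FiniteDimensional L W] [FiniteDimensional L W']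
    (hb : ∀ x y, b (T x) (T' y) = c * b x y) (hnd : ∀ x, (∀ y, b x y = 0) → x = 0)
    {a : L} (ha : a ≠ 0) : mult T a ≤ mult T' (c / a) := by
  rw [mult, mult, ← Subspace.dual_finrank_eq (K := L) (V := T'.maxGenEigenspace (c / a))]
  let F : T.maxGenEigenspace a →ₗ[L] Dual L (T'.maxGenEigenspace (c / a)) :=
    b.compl₁₂ (T.maxGenEigenspace a).subtype (T'.maxGenEigenspace (c / a)).subtype
  apply LinearMap.finrank_le_finrank_of_injective (f := F)
  rw [injective_iff_map_eq_zero]
  intro x hx
  apply Subtype.ext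
  apply hnd
  have htop : (⊤ : Submodule L W') ≤ LinearMap.ker (b x) := by
    rw [← End.iSup_maxGenEigenspace_eq_top T']
    refine iSup_le fun a' y hy => ?_
    rw [LinearMap.mem_ker]
    by_cases h : a * a' = c
    · have h1 : a' = c / a := by
        rw [eq_div_iff ha, mul_comm]; exact h
      subst h1
      exact LinearMap.congr_fun hx ⟨y, hy⟩
    · exact orth hb h x.2 hy
  intro y
  exact htop (Submodule.mem_top (x := y))

end dual

section three

variable {L κ : Type} [Field L] [CharZero L] [IsAlgClosed L] [Field κ]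
    (φ : integralClosure ℤ L →+* κ)

variable {W W' : Type*} [AddCommGroup W] [Module L W] [FiniteDimensional L W]
    [AddCommGroup W'] [Module L W'] [FiniteDimensional L W']

omit [CharZero L] in
/-- the residue of the trace of a power in terms of the residues of the eigenvalues -/
theorem res_trace {T : End L W} (hint : ∀ c ∈ eigs T, IsIntegral ℤ c) (j : ℕ) :
    res φ (LinearMap.trace L W (T ^ j)) = ∑ c ∈ eigs T, (mult T c : κ) * res φ c ^ j := by
  rw [trace_pow, res_sum φ _ _ (fun c hc => (int_nat (mult T c)).mul ((hint c hc).pow j))]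
  refine Finset.sum_congr rfl fun c hc => ?_
  rw [res_mul φ (int_nat (mult T c)) ((hint c hc).pow j), res_natCast, res_pow φ (hint c hc)]

/-- a multiple unit eigenvalue and a non-unit eigenvalue on a space of dimension three -/
theorem no_double {T : End L W} (hint : ∀ c ∈ eigs T, IsIntegral ℤ c) (hdim : finrank L W ≤ 3)
    (h1 : res φ (LinearMap.trace L W T) ≠ 0)
    (h2 : res φ (LinearMap.trace L W (T ^ 2)) = res φ (LinearMap.trace L W T) ^ 2)
    {a b : L} (ha : 2 ≤ mult T a) (hb : b ∈ eigs T) (hra : res φ a ≠ 0) (hrb : res φ b = 0) :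
    False := by
  classical
  have hab : a ≠ b := by rintro rfl; exact hra hrb
  have hae : a ∈ eigs T := by
    by_contra h
    rw [mult_zero_of_notMem h] at ha
    omega
  have hsum := sum_mult T
  have hb1 := one_le_mult hb
  have hsub : ({a, b} : Finset L) ⊆ eigs T := by
    intro x hx
    rw [Finset.mem_insert, Finset.mem_singleton] at hx
    rcases hx with rfl | rfl
    · exact hae
    · exact hb
  have hpair : ∑ c ∈ ({a, b} : Finset L), mult T c = mult T a + mult T b :=
    Finset.sum_pair hab
  have hle : ∑ c ∈ ({a, b} : Finset L), mult T c ≤ ∑ c ∈ eigs T, mult T c :=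
    Finset.sum_le_sum_of_subset hsub
  have hma : mult T a = 2 := by omega
  have heq : eigs T = {a, b} := by
    refine (Finset.eq_of_subset_of_card_le hsub ?_).symm
    by_contra hlt
    push Not at hlt
    obtain ⟨d, hd, hdn⟩ := Finset.exists_mem_notMem_of_card_lt_card hlt
    have h3 : ∑ c ∈ insert d ({a, b} : Finset L), mult T c ≤ ∑ c ∈ eigs T, mult T c :=
      Finset.sum_le_sum_of_subset (Finset.insert_subset hd hsub)
    rw [Finset.sum_insert hdn, hpair] at h3
    have := one_le_mult hd
    omega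
  have hp : ∀ j, 0 < j → res φ (LinearMap.trace L W (T ^ j)) = 2 * res φ a ^ j := by
    intro j hj
    rw [res_trace φ hint j, heq, Finset.sum_pair hab, hma, hrb, zero_pow hj.ne', mul_zero,
      add_zero]
    norm_num
  have h11 := hp 1 one_pos
  rw [pow_one, pow_one] at h11
  rw [hp 2 two_pos, h11] at h2
  have h3 : (2 : κ) * res φ a ^ 2 = 0 := by linear_combination -h2
  rcases mul_eq_zero.1 h3 with h4 | h4
  · apply h1
    rw [h11, h4, zero_mul]
  · exact hra (pow_eq_zero_iff (two_ne_zero) |>.1 h4)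

theorem exists_unit_eig {T : End L W} (hint : ∀ c ∈ eigs T, IsIntegral ℤ c)
    (h1 : res φ (LinearMap.trace L W T) ≠ 0) : ∃ c ∈ eigs T, res φ c ≠ 0 := by
  by_contra hcon
  push Not at hcon
  apply h1
  have := res_trace φ hint 1
  rw [pow_one] at this
  rw [this]
  refine Finset.sum_eq_zero fun c hc => ?_
  rw [hcon c hc, pow_one, mul_zero]

omit [CharZero L] [IsAlgClosed L] in
/-- the eigenvalues of an injective map are nonzero -/
theorem ne_zero_of_mem {S : End L W} (hS : Function.Injective S) {c : L} (hc : c ∈ eigs S) :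
    c ≠ 0 := by
  intro h0
  subst h0
  rw [mem_eigs] at hc
  apply hc
  rw [Submodule.eq_bot_iff]
  intro y hy
  rw [End.mem_maxGenEigenspace] at hy
  obtain ⟨n, hn⟩ := hy
  have h3 : Function.Injective ((S - (0 : L) • 1) ^ n : End L W) := by
    rw [zero_smul, sub_zero, End.coe_pow]
    exact hS.iterate n
  exact h3 (by rw [hn, map_zero])

omit [CharZero L] [IsAlgClosed L] in
theorem mem_of_mult {S : End L W} {c : L} (hc : 1 ≤ mult S c) : c ∈ eigs S := by
  by_contra h
  rw [mult_zero_of_notMem h] at hc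
  omega

omit [CharZero L] [IsAlgClosed L] in
theorem res_div {Q c : L} (hQ : res φ Q = 0) (hc : IsIntegral ℤ c) (hc' : IsIntegral ℤ (Q / c))
    (hc0 : c ≠ 0) (hrc : res φ c ≠ 0) : res φ (Q / c) = 0 := by
  have h3 : res φ (Q / c * c) = 0 := by rw [div_mul_cancel₀ _ hc0, hQ]
  rw [res_mul φ hc' hc] at h3
  exact (mul_eq_zero.1 h3).resolve_right hrc

/-- two dual parts of dimension at most three with a unit eigenvalue each: no Jordan blocks -/
theorem core_three {T : End L W} {T' : End L W'} {b : W →ₗ[L] W' →ₗ[L] L}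
    {b' : W' →ₗ[L] W →ₗ[L] L} {Q : L} (hQ0 : Q ≠ 0)
    (hQ : res φ Q = 0)
    (hb : ∀ x y, b (T x) (T' y) = Q * b x y) (hnd : ∀ x, (∀ y, b x y = 0) → x = 0)
    (hb' : ∀ x y, b' (T' x) (T y) = Q * b' x y) (hnd' : ∀ x, (∀ y, b' x y = 0) → x = 0)
    (hinj : Function.Injective T) (hinj' : Function.Injective T')
    (hint : ∀ c ∈ eigs T, IsIntegral ℤ c) (hint' : ∀ c ∈ eigs T', IsIntegral ℤ c)
    (hdim : finrank L W ≤ 3) (hdim' : finrank L W' ≤ 3)
    (h1 : res φ (LinearMap.trace L W T) ≠ 0)
    (h2 : res φ (LinearMap.trace L W (T ^ 2)) = res φ (LinearMap.trace L W T) ^ 2)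
    (h1' : res φ (LinearMap.trace L W' T') ≠ 0)
    (h2' : res φ (LinearMap.trace L W' (T' ^ 2)) = res φ (LinearMap.trace L W' T') ^ 2)
    {a : L} {x : W} (hx : (T - a • 1) ((T - a • 1) x) = 0) : (T - a • 1) x = 0 := by
  classical
  by_contra hv
  have ha2 : 2 ≤ mult T a := two_le_mult hx hv
  have hx0 : x ≠ 0 := by
    rintro rfl
    exact hv (map_zero _)
  have hae : a ∈ eigs T := mem_eigs_of_sq hx hx0
  obtain ⟨u, hu, hru⟩ := exists_unit_eig φ hint h1
  obtain ⟨u', hu', hru'⟩ := exists_unit_eig φ hint' h1'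
  have hu0 := ne_zero_of_mem hinj hu
  have hu0' := ne_zero_of_mem hinj' hu'
  have ha0 := ne_zero_of_mem hinj hae
  -- the dual eigenvalues
  have hwm : Q / u' ∈ eigs T := mem_of_mult ((one_le_mult hu').trans (mult_le hb' hnd' hu0'))
  have hwm' : Q / u ∈ eigs T' := mem_of_mult ((one_le_mult hu).trans (mult_le hb hnd hu0))
  have hw0 : res φ (Q / u') = 0 := res_div φ hQ (hint' u' hu') (hint _ hwm) hu0' hru'
  have hw0' : res φ (Q / u) = 0 := res_div φ hQ (hint u hu) (hint' _ hwm') hu0 hru
  by_cases hau : a = u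
  · subst hau
    exact no_double φ hint hdim h1 h2 ha2 hwm hru hw0
  by_cases haw : a = Q / u'
  · have h3 : 2 ≤ mult T' u' := by
      have h4 := mult_le hb hnd ha0
      rw [haw, div_div_cancel₀ hQ0] at h4
      rw [haw] at ha2
      omega
    exact no_double φ hint' hdim' h1' h2' h3 hwm' hru' hw0'
  · have huw : u ≠ Q / u' := by
      intro h
      rw [h] at hru
      exact hru hw0
    have hsub : ({a, u, Q / u'} : Finset L) ⊆ eigs T := by
      intro y hy
      rw [Finset.mem_insert, Finset.mem_insert, Finset.mem_singleton] at hy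
      rcases hy with rfl | rfl | rfl
      · exact hae
      · exact hu
      · exact hwm
    have h3 : ∑ c ∈ ({a, u, Q / u'} : Finset L), mult T c ≤ ∑ c ∈ eigs T, mult T c :=
      Finset.sum_le_sum_of_subset hsub
    rw [Finset.sum_insert (by
      rw [Finset.mem_insert, Finset.mem_singleton]
      push Not
      exact ⟨hau, haw⟩), Finset.sum_pair huw, sum_mult T] at h3
    have := one_le_mult hu
    have := one_le_mult hwm
    omega

end three

end Pool.Agent.Helper73.HD
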