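import Mathlib

/-!
# Digits and powers of a polynomial of degree less than `p`
-/

open Polynomial

namespace Pool.Agent.Helper73.HD

/-- `1 + p + ⋯ + p ^ (M - 1)` -/
def e (p M : ℕ) : ℕ := ∑ i ∈ Finset.range M, p ^ i

theorem e_succ (p M : ℕ) : e p (M + 1) = 1 + p * e p M := by
  rw [e, e, Finset.sum_range_succ', Finset.mul_sum, pow_zero, add_comm]
  congr 1
  exact Finset.sum_congr rfl fun i _ => by rw [pow_succ']

theorem e_eq {p : ℕ} (hp : 2 ≤ p) (M : ℕ) : e p M = (p ^ M - 1) / (p - 1) := by
  rw [e, Nat.geomSum_eq hp]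

theorem mul_e {p : ℕ} (hp : 2 ≤ p) (M : ℕ) : (p - 1) * e p M = p ^ M - 1 := by
  induction M with
  | zero => simp [e]
  | succ M ih =>
    rw [e_succ, mul_add, mul_one, ← mul_assoc, mul_comm (p - 1) p, mul_assoc, ih, pow_succ',
      Nat.mul_sub, mul_one]
    have : p ≤ p * p ^ M := Nat.le_mul_of_pos_right p (by positivity)
    omega

/-- the digits of the complement -/
theorem compl_digit {p : ℕ} (hp : 0 < p) (M : ℕ) {D : ℕ} (hD : D < p ^ M) {j : ℕ} (hj : j < M) :
    (p ^ M - 1 - D) / p ^ j % p = p - 1 - D / p ^ j % p := by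
  induction M generalizing D j with
  | zero => omega
  | succ M ih =>
    have hr := Nat.mod_lt D hp
    have hdm := Nat.div_add_mod D p
    have hD2 : D / p < p ^ M := by
      rw [pow_succ] at hD
      exact (Nat.div_lt_iff_lt_mul hp).2 hD
    have key : p ^ (M + 1) - 1 - D = (p - 1 - D % p) + p * (p ^ M - 1 - D / p) := by
      obtain ⟨c, hc⟩ : ∃ c, p ^ M = D / p + 1 + c := ⟨p ^ M - (D / p + 1), by omega⟩
      have h1 : p ^ M - 1 - D / p = c := by omega
      have h2 : p ^ (M + 1) = p * (D / p) + p + p * c := by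
        rw [pow_succ', hc]; ring
      rw [h1, h2]
      omega
    rcases Nat.eq_zero_or_pos j with h0 | h0
    · subst h0
      rw [pow_zero, Nat.div_one, Nat.div_one, key, Nat.add_mul_mod_self_left]
      exact Nat.mod_eq_of_lt (by omega)
    · obtain ⟨i, rfl⟩ := Nat.exists_eq_succ_of_ne_zero h0.ne'
      have h3 : (p ^ (M + 1) - 1 - D) / p = p ^ M - 1 - D / p := by
        rw [key, Nat.add_mul_div_left _ _ hp, Nat.div_eq_of_lt (by omega), zero_add]
      have h4 : p ^ (i.succ) = p * p ^ i := pow_succ' p i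
      rw [h4, ← Nat.div_div_eq_div_mul, h3, ← Nat.div_div_eq_div_mul, ih hD2 (by omega)]

section coeff

variable {K : Type*} [Field K] {p : ℕ} [Fact p.Prime] [CharP K p]

/-- the coefficients of the `p`-th power -/
theorem coeff_pow_p (g : K[X]) (n : ℕ) :
    (g ^ p).coeff n = if p ∣ n then (g.coeff (n / p)) ^ p else 0 := by
  have hp : 0 < p := (Fact.out : p.Prime).pos
  rw [← map_frobenius_expand p g, coeff_map, coeff_expand hp]
  split_ifs with h
  · rw [frobenius_def]
  · rw [map_zero]

/-- the first digit -/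
theorem coeff_mul_pow {h : K[X]} (hd : h.natDegree < p) (g : K[X]) (D : ℕ) :
    (h * g ^ p).coeff D = h.coeff (D % p) * (g.coeff (D / p)) ^ p := by
  have hp : 0 < p := (Fact.out : p.Prime).pos
  rw [coeff_mul, Finset.sum_eq_single (D % p, D - D % p)]
  · rw [coeff_pow_p, if_pos (Nat.dvd_sub_mod D)]
    congr 3
    have h1 := Nat.div_add_mod D p
    have h2 : D - D % p = p * (D / p) := by omega
    rw [h2, Nat.mul_div_cancel_left _ hp]
  · rintro ⟨i, j⟩ hij hne
    rw [Finset.HasAntidiagonal.mem_antidiagonal] at hij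
    simp only at hij ⊢
    by_cases hi : i < p
    · rw [coeff_pow_p, if_neg, mul_zero]
      rintro ⟨c, rfl⟩
      apply hne
      have h1 : D % p = i := by
        rw [← hij, Nat.add_mul_mod_self_left, Nat.mod_eq_of_lt hi]
      rw [h1]
      ext <;> simp only
      omega
    · rw [coeff_eq_zero_of_natDegree_lt (by omega), zero_mul]
  · intro hnot
    exfalso
    apply hnot
    rw [Finset.HasAntidiagonal.mem_antidiagonal]
    simp only
    have := Nat.mod_le D p
    omega

theorem coeff_succ {h : K[X]} (hd : h.natDegree < p) (M D : ℕ) :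
    (h ^ e p (M + 1)).coeff D = h.coeff (D % p) * ((h ^ e p M).coeff (D / p)) ^ p := by
  rw [e_succ, pow_add, pow_one, mul_comm p, pow_mul, coeff_mul_pow hd]

omit [Fact p.Prime] [CharP K p] in
theorem coeff_zero' {h : K[X]} (D : ℕ) :
    (h ^ e p 0).coeff D = if D = 0 then 1 else 0 := by
  rw [e, Finset.sum_range_zero, pow_zero, coeff_one]

/-- nonvanishing of a coefficient whose digits are good -/
theorem coeff_ne_zero {h : K[X]} (hd : h.natDegree < p) (M : ℕ) {D : ℕ} (hD : D < p ^ M)
    (hg : ∀ i < M, h.coeff (D / p ^ i % p) ≠ 0) : (h ^ e p M).coeff D ≠ 0 := by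
  have hp : 0 < p := (Fact.out : p.Prime).pos
  induction M generalizing D with
  | zero =>
    rw [pow_zero] at hD
    rw [coeff_zero', if_pos (by omega)]
    exact one_ne_zero
  | succ M ih =>
    rw [coeff_succ hd]
    refine mul_ne_zero ?_ (pow_ne_zero _ ?_)
    · have := hg 0 (by omega)
      rwa [pow_zero, Nat.div_one] at this
    · apply ih
      · rw [pow_succ] at hD
        exact (Nat.div_lt_iff_lt_mul hp).2 hD
      · intro i hi
        have := hg (i + 1) (by omega)
        rwa [pow_succ', ← Nat.div_div_eq_div_mul] at this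

/-- concatenation of digits -/
theorem coeff_concat {h : K[X]} (hd : h.natDegree < p) (M M' : ℕ) {D : ℕ} (hD : D < p ^ M)
    (D' : ℕ) : (h ^ e p (M + M')).coeff (D + p ^ M * D') =
      (h ^ e p M).coeff D * ((h ^ e p M').coeff D') ^ p ^ M := by
  have hp : 0 < p := (Fact.out : p.Prime).pos
  induction M generalizing D with
  | zero =>
    rw [pow_zero] at hD
    have : D = 0 := by omega
    subst this
    rw [zero_add, pow_zero, one_mul, zero_add, coeff_zero', if_pos rfl, one_mul, pow_one]
  | succ M ih =>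
    have h1 : M + 1 + M' = (M + M') + 1 := by omega
    have h2 : (D + p ^ (M + 1) * D') % p = D % p := by
      rw [pow_succ', mul_assoc, Nat.add_mul_mod_self_left]
    have h3 : (D + p ^ (M + 1) * D') / p = D / p + p ^ M * D' := by
      rw [pow_succ', mul_assoc, Nat.add_mul_div_left _ _ hp]
    rw [h1, coeff_succ hd, coeff_succ hd, h2, h3, ih, mul_pow, ← pow_mul, ← pow_succ, mul_assoc]
    rw [pow_succ] at hD
    exact (Nat.div_lt_iff_lt_mul hp).2 hD

end coeff

section sums

variable {K : Type*} [Field K] [Fintype K] [DecidableEq K] {p : ℕ} [Fact p.Prime] [CharP K p]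

omit [CharP K p] in
/-- the sum of `h (t) ^ (1 + p + ⋯) t ^ E` over the units -/
theorem sum_units {h : K[X]} (hd : h.natDegree < p) {M E : ℕ} (hK : Fintype.card K = p ^ M)
    (hE : 0 < E) (hE' : E < p ^ M - 1) :
    ∑ t : Kˣ, h.eval (t : K) ^ e p M * (t : K) ^ E = - (h ^ e p M).coeff (p ^ M - 1 - E) := by
  have hp2 : 2 ≤ p := (Fact.out : p.Prime).two_le
  have hdeg : (h ^ e p M).natDegree < p ^ M := by
    have h1 : (h ^ e p M).natDegree ≤ e p M * h.natDegree := natDegree_pow_le
    have h2 : e p M * h.natDegree ≤ e p M * (p - 1) := Nat.mul_le_mul_left _ (by omega)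
    have h3 := mul_e hp2 M
    have h4 : 0 < p ^ M := by positivity
    rw [mul_comm] at h3
    omega
  have h1 : ∀ t : Kˣ, h.eval (t : K) ^ e p M * (t : K) ^ E =
      ∑ D ∈ Finset.range (p ^ M), (h ^ e p M).coeff D * (t : K) ^ (D + E) := by
    intro t
    rw [← eval_pow, eval_eq_sum_range' hdeg, Finset.sum_mul]
    refine Finset.sum_congr rfl fun D _ => ?_
    rw [mul_assoc, pow_add]
  rw [Finset.sum_congr rfl fun t _ => h1 t, Finset.sum_comm]
  have h2 : ∀ D, ∑ t : Kˣ, (h ^ e p M).coeff D * (t : K) ^ (D + E) =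
      if p ^ M - 1 ∣ D + E then - (h ^ e p M).coeff D else 0 := by
    intro D
    rw [← Finset.mul_sum]
    have h3 := FiniteField.sum_pow_units K (D + E)
    rw [hK] at h3
    rw [h3]
    split_ifs
    · ring
    · ring
  rw [Finset.sum_congr rfl fun D _ => h2 D]
  rw [Finset.sum_eq_single (p ^ M - 1 - E)]
  · rw [if_pos]
    have : p ^ M - 1 - E + E = p ^ M - 1 := by omega
    rw [this]
  · intro D hD hne
    rw [Finset.mem_range] at hD
    rw [if_neg]
    rintro ⟨c, hc⟩
    rcases Nat.lt_or_ge c 1 with h | h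
    · interval_cases c; omega
    · rcases Nat.lt_or_ge c 2 with h' | h'
      · interval_cases c
        omega
      · have : (p ^ M - 1) * 2 ≤ (p ^ M - 1) * c := Nat.mul_le_mul_left _ h'
        omega
  · intro h
    exfalso
    apply h
    rw [Finset.mem_range]
    omega

end sums

end Pool.Agent.Helper73.HD
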