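import Pool.Agent.Helper73.HD.Place
import Pool.Agent.Helper73.HD.Digits

/-!
# The residues of the traces
-/

open Polynomial Module

namespace Pool.Agent.Helper73.HD

open Pool.Agent.Helper73.KT

section

variable {L κ : Type} [Field L] [Field κ] (φ : integralClosure ℤ L →+* κ)

theorem int_int (z : ℤ) : IsIntegral ℤ (z : L) := by
  have := isIntegral_algebraMap (R := ℤ) (A := L) (x := z)
  simpa using this

theorem res_intCast (z : ℤ) : res φ (z : L) = z := by
  have h := res_coe φ (z : integralClosure ℤ L)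
  rw [map_intCast] at h
  simpa using h

theorem res_neg {x : L} (hx : IsIntegral ℤ x) : res φ (-x) = - res φ x := by
  have h1 : -x = ((-1 : ℤ) : L) * x := by push_cast; ring
  rw [h1, res_mul φ (int_int (-1)) hx, res_intCast]
  push_cast
  ring

theorem int_unit {K : Type} [Field K] [Finite K] (τ : Kˣ →* Lˣ) (t : Kˣ) :
    IsIntegral ℤ ((τ t : Lˣ) : L) := by
  have : Fintype K := Fintype.ofFinite K
  classical
  have h1 : t ^ Fintype.card Kˣ = 1 := pow_card_eq_one
  have h2 : ((τ t : Lˣ) : L) ^ Fintype.card Kˣ = 1 := by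
    rw [← Units.val_pow_eq_pow_val, ← map_pow, h1, map_one, Units.val_one]
  have h3 : IsIntegral ℤ (((τ t : Lˣ) : L) ^ Fintype.card Kˣ) := by
    rw [h2]; exact isIntegral_one
  exact h3.of_pow Fintype.card_pos

end

section

variable {L κ K₀ : Type} [Field L] [Field κ] [Field K₀] [Fintype K₀] [DecidableEq K₀] {p : ℕ}
    [Fact p.Prime] [CharP K₀ p] (φ : integralClosure ℤ L →+* κ) (ι : K₀ →+* κ)

/-- the residue of the first sum -/
theorem resid_one {M : ℕ} (hK : Fintype.card K₀ = p ^ M) {h : K₀[X]} (hd : h.natDegree < p)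
    (a : K₀ˣ → ℤ) (ha : ∀ t : K₀ˣ, (a t : K₀) = h.eval (t : K₀) ^ e p M) (τ : K₀ˣ →* Lˣ)
    (hτ : ∀ t : K₀ˣ, res φ ((τ t : Lˣ) : L) = ι t) {D : ℕ} (hD : 0 < D) (hD' : D < p ^ M - 1) :
    res φ (∑ t : K₀ˣ, (a t : L) * (((τ ^ D) t : Lˣ) : L)) =
      - ι ((h ^ e p M).coeff (p ^ M - 1 - D)) := by
  rw [res_sum φ _ _ (fun t _ => (int_int (a t)).mul (int_unit (τ ^ D) t))]
  have h1 : ∀ t : K₀ˣ, res φ ((a t : L) * (((τ ^ D) t : Lˣ) : L)) =
      ι (h.eval (t : K₀) ^ e p M * (t : K₀) ^ D) := by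
    intro t
    rw [res_mul φ (int_int (a t)) (int_unit (τ ^ D) t), res_intCast, MonoidHom.pow_apply,
      Units.val_pow_eq_pow_val, res_pow φ (int_unit τ t), hτ, map_mul, map_pow _ (t : K₀), ← ha,
      map_intCast]
  rw [Finset.sum_congr rfl fun t _ => h1 t, ← map_sum, sum_units hd hK hD hD', map_neg]

/-- the residue of the second sum -/
theorem resid_two {M : ℕ} (hK : Fintype.card K₀ = p ^ M) {h : K₀[X]} (hd : h.natDegree < p)
    {K : Type} [Field K] [Fintype K] [DecidableEq K] [Algebra K₀ K] (hfin : finrank K₀ K = 2)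
    (a : Kˣ → ℤ) (ha : ∀ t : Kˣ, (a t : K) = aeval (t : K) h ^ e p (2 * M)) (τ : K₀ˣ →* Lˣ)
    (hτ : ∀ t : K₀ˣ, res φ ((τ t : Lˣ) : L) = ι t) {D : ℕ} (hD : 0 < D) (hD' : D < p ^ M - 1) :
    res φ (∑ t : Kˣ, (a t : L) * (((τ ^ D) (Units.map (Algebra.norm K₀) t) : Lˣ) : L)) =
      - (ι ((h ^ e p M).coeff (p ^ M - 1 - D))) ^ 2 := by
  have : CharP K p := charP_of_injective_ringHom (algebraMap K₀ K).injective p
  have hM1 : 1 < p ^ M := by omega
  have hKK : Fintype.card K = p ^ (2 * M) := by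
    rw [Module.card_eq_pow_finrank (K := K₀), hfin, hK, ← pow_mul, mul_comm]
  set C := (h ^ e p M).coeff (p ^ M - 1 - D) with hC
  set s : K₀ := ∑ t : Kˣ, (a t : K₀) * (Algebra.norm K₀ (t : K)) ^ D with hs
  have h0 : res φ (∑ t : Kˣ, (a t : L) * (((τ ^ D) (Units.map (Algebra.norm K₀) t) : Lˣ) : L)) =
      ι s := by
    rw [res_sum φ _ _ (fun t _ => (int_int (a t)).mul (int_unit (τ ^ D) _)), hs, map_sum]
    refine Finset.sum_congr rfl fun t _ => ?_
    rw [res_mul φ (int_int (a t)) (int_unit (τ ^ D) _), res_intCast, MonoidHom.pow_apply,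
      Units.val_pow_eq_pow_val, res_pow φ (int_unit τ _), hτ, map_mul, map_intCast, map_pow]
    rfl
  rw [h0, ← map_pow, ← map_neg]
  congr 1
  apply (algebraMap K₀ K).injective
  have hnorm : ∀ t : Kˣ, algebraMap K₀ K (Algebra.norm K₀ (t : K)) = (t : K) ^ (p ^ M + 1) := by
    intro t
    have h1 := FiniteField.algebraMap_norm_eq_pow (K := K₀) (K' := K) (x := (t : K))
    rw [h1]
    congr 1
    rw [Nat.card_eq_fintype_card, Nat.card_eq_fintype_card, hKK, hK]
    have h2 : p ^ (2 * M) - 1 = (p ^ M + 1) * (p ^ M - 1) := by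
      rw [two_mul, pow_add]
      have := Nat.mul_self_sub_mul_self_eq (p ^ M) 1
      simpa using this
    rw [h2, Nat.mul_div_cancel _ (by omega)]
  have hd' : (h.map (algebraMap K₀ K)).natDegree < p := lt_of_le_of_lt natDegree_map_le hd
  have hE : 0 < (p ^ M + 1) * D := by positivity
  have hE2 : p ^ (2 * M) - 1 - (p ^ M + 1) * D = (p ^ M - 1 - D) + p ^ M * (p ^ M - 1 - D) := by
    rw [two_mul, pow_add]
    obtain ⟨c, hc⟩ : ∃ c, p ^ M = D + 1 + c := ⟨p ^ M - (D + 1), by omega⟩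
    rw [hc]
    have h3 : D + 1 + c - 1 - D = c := by omega
    rw [h3]
    have h4 : (D + 1 + c) * (D + 1 + c) = 1 + (D + 1 + c + 1) * D + (c + (D + 1 + c) * c) := by
      ring
    rw [h4]
    omega
  have hE' : (p ^ M + 1) * D < p ^ (2 * M) - 1 := by
    have h5 : 0 < (p ^ M - 1 - D) + p ^ M * (p ^ M - 1 - D) := by
      have : 0 < p ^ M - 1 - D := by omega
      positivity
    omega
  have h6 := sum_units (K := K) hd' hKK hE hE'
  rw [hE2] at h6
  have h7 : e p (2 * M) = e p (M + M) := by rw [two_mul]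
  have h8 := coeff_concat (h := h.map (algebraMap K₀ K)) hd' M M (D := p ^ M - 1 - D)
    (by omega) (p ^ M - 1 - D)
  rw [← h7] at h8
  rw [h8, ← Polynomial.map_pow, coeff_map, ← hC] at h6
  have h9 : (algebraMap K₀ K C) ^ p ^ M = algebraMap K₀ K C := by
    rw [← map_pow, ← hK, FiniteField.pow_card]
  rw [h9] at h6
  rw [map_neg, map_pow, hs, map_sum, sq, ← h6]
  refine Finset.sum_congr rfl fun t _ => ?_
  rw [map_mul, map_intCast, ha, map_pow, hnorm, ← pow_mul, eval_map, aeval_def]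

end

end Pool.Agent.Helper73.HD
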