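import Pool.Agent.Helper73.KT.Core

/-!
# A place at which a faithful character is the Teichmüller character
-/

open Polynomial

namespace Pool.Agent.Helper73.HD

open Pool.Agent.Helper73.KT

section

variable {L K : Type} [Field L] [CharZero L] [Field K] [Fintype K] {p : ℕ} [Fact p.Prime]
    [CharP K p]

/-- For an injective character `τ` of the multiplicative group of a finite field `K` there is a
homomorphism of the ring of algebraic integers to a field which contains `K` such that `τ (t)` is
mapped to `t`. -/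
theorem exists_place (τ : Kˣ →* Lˣ) (hτ : Function.Injective τ) :
    ∃ (κ : Type) (_ : Field κ) (_ : CharP κ p) (φ : integralClosure ℤ L →+* κ) (ι : K →+* κ),
      ∀ t : Kˣ, res φ ((τ t : Lˣ) : L) = ι t := by
  classical
  obtain ⟨g, hg⟩ := IsCyclic.exists_generator (α := Kˣ)
  set n := Fintype.card Kˣ with hn
  have hnpos : 0 < n := Fintype.card_pos
  have hordg : orderOf g = n := orderOf_eq_card_of_forall_mem_zpowers hg |>.trans
    Nat.card_eq_fintype_card
  have hordη : orderOf (τ g) = n := by rw [orderOf_injective τ hτ, hordg]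
  have hη : IsPrimitiveRoot ((τ g : Lˣ) : L) n := by
    have h1 := IsPrimitiveRoot.orderOf (τ g)
    rw [hordη] at h1
    exact IsPrimitiveRoot.coe_units_iff.2 h1
  have hgK : IsPrimitiveRoot (g : K) n := by
    have h1 := IsPrimitiveRoot.orderOf g
    rw [hordg] at h1
    exact IsPrimitiveRoot.coe_units_iff.2 h1
  have hint : IsIntegral ℤ ((τ g : Lˣ) : L) := hη.isIntegral hnpos
  let η : integralClosure ℤ L := ⟨_, hint⟩
  let F : ℤ[X] →+* integralClosure ℤ L := (aeval η : ℤ[X] →ₐ[ℤ] integralClosure ℤ L).toRingHom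
  let f : ℤ[X] →+* K := (aeval (g : K) : ℤ[X] →ₐ[ℤ] K).toRingHom
  have hFX : F X = η := aeval_X η
  have hfX : f X = g := aeval_X (g : K)
  have hfsurj : Function.Surjective f := by
    intro x
    by_cases hx : x = 0
    · exact ⟨0, by rw [map_zero, hx]⟩
    · obtain ⟨j, hj⟩ := (mem_powers_iff_mem_zpowers.2 (hg (Units.mk0 x hx)))
      refine ⟨X ^ j, ?_⟩
      rw [map_pow, hfX]
      have := congrArg (fun u : Kˣ => (u : K)) hj
      simpa using this
  have hker : RingHom.ker F ≤ RingHom.ker f := by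
    intro G hG
    rw [RingHom.mem_ker] at hG ⊢
    have h1 : aeval ((τ g : Lˣ) : L) G = 0 := by
      have h2 : aeval η G = 0 := hG
      have h3 := congrArg (algebraMap (integralClosure ℤ L) L) h2
      rw [map_zero, ← aeval_algebraMap_apply] at h3
      exact h3
    have h2 : minpoly ℤ ((τ g : Lˣ) : L) ∣ G := minpoly.isIntegrallyClosed_dvd hint h1
    rw [← cyclotomic_eq_minpoly hη hnpos] at h2
    obtain ⟨G', rfl⟩ := h2
    have h3 : f (cyclotomic n ℤ) = 0 := by
      change aeval (g : K) (cyclotomic n ℤ) = 0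
      rw [aeval_def, eval₂_eq_eval_map, algebraMap_int_eq, map_cyclotomic_int]
      exact hgK.isRoot_cyclotomic hnpos
    rw [map_mul, h3, zero_mul]
  let : Algebra ℤ[X] (integralClosure ℤ L) := F.toAlgebra
  have : IsScalarTower ℤ ℤ[X] (integralClosure ℤ L) := IsScalarTower.of_algebraMap_eq'
    (Subsingleton.elim _ _)
  have : Algebra.IsIntegral ℤ (integralClosure ℤ L) := inferInstance
  have : Algebra.IsIntegral ℤ[X] (integralClosure ℤ L) := Algebra.IsIntegral.tower_top ℤ
  have hmax : (RingHom.ker f).IsMaximal := RingHom.ker_isMaximal_of_surjective f hfsurj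
  obtain ⟨Q, hQ, hQc⟩ := Ideal.exists_ideal_over_maximal_of_isIntegral
    (S := integralClosure ℤ L) (RingHom.ker f) hker
  let : Field (integralClosure ℤ L ⧸ Q) := Ideal.Quotient.field Q
  have hkerc : RingHom.ker f ≤ RingHom.ker ((Ideal.Quotient.mk Q).comp F) := by
    intro G hG
    rw [RingHom.mem_ker, RingHom.comp_apply, Ideal.Quotient.eq_zero_iff_mem]
    rw [← hQc] at hG
    exact hG
  let ι : K →+* integralClosure ℤ L ⧸ Q :=
    RingHom.liftOfSurjective f hfsurj ⟨(Ideal.Quotient.mk Q).comp F, hkerc⟩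
  have hι : ∀ G, ι (f G) = Ideal.Quotient.mk Q (F G) := fun G =>
    RingHom.liftOfRightInverse_comp_apply f _ _ ⟨(Ideal.Quotient.mk Q).comp F, hkerc⟩ G
  have hch : CharP (integralClosure ℤ L ⧸ Q) p := charP_of_injective_ringHom ι.injective p
  refine ⟨integralClosure ℤ L ⧸ Q, this, hch, Ideal.Quotient.mk Q, ι, ?_⟩
  intro t
  obtain ⟨j, hj⟩ := (mem_powers_iff_mem_zpowers.2 (hg t))
  have hj' : g ^ j = t := hj
  rw [← hj', map_pow, Units.val_pow_eq_pow_val, Units.val_pow_eq_pow_val, res_pow _ hint,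
    map_pow, res_eq _ hint]
  congr 1
  rw [← hfX, hι, hFX]

end

end Pool.Agent.Helper73.HD
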