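import Pool.Agent.Helper73.HD.Sums

/-!
# Every place makes some faithful character the Teichmüller character
-/

open Polynomial

namespace Pool.Agent.Helper73.HD

open Pool.Agent.Helper73.KT

section

variable {L : Type} [Field L] [CharZero L] [IsAlgClosed L]

omit [CharZero L] in
/-- the residue fields of the ring of algebraic integers are algebraically closed -/
theorem isAlgClosed_of_surjective {κ : Type} [Field κ] (φ : integralClosure ℤ L →+* κ)
    (hφ : Function.Surjective φ) : IsAlgClosed κ := by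
  apply IsAlgClosed.of_exists_root
  intro g hg hirr
  have h1 : g ∈ lifts φ := by
    rw [lifts_iff_coeff_lifts]
    intro i
    exact hφ _
  obtain ⟨G, hG, hdeg, hmon⟩ := lifts_and_natDegree_eq_and_monic h1 hg
  have h2 : (G.map (algebraMap (integralClosure ℤ L) L)).degree ≠ 0 := by
    rw [hmon.degree_map]
    intro h0
    have h3 : g.degree = 0 := by
      rw [← hG, hmon.degree_map]
      exact h0
    exact hirr.degree_pos.ne' h3
  obtain ⟨x, hx⟩ := IsAlgClosed.exists_root _ h2
  rw [IsRoot.def, eval_map] at hx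
  have hxi : IsIntegral (integralClosure ℤ L) x := ⟨G, hmon, hx⟩
  have hxi' : IsIntegral ℤ x := isIntegral_trans _ hxi
  refine ⟨φ ⟨x, hxi'⟩, ?_⟩
  rw [← hG, eval_map, eval₂_hom]
  have h3 : G.eval (⟨x, hxi'⟩ : integralClosure ℤ L) = 0 := by
    apply Subtype.val_injective (p := fun y => y ∈ integralClosure ℤ L)
    have h4 : algebraMap (integralClosure ℤ L) L (G.eval ⟨x, hxi'⟩) = 0 := by
      rw [← hx, eval₂_eq_eval_map, ← eval₂_hom, eval₂_eq_eval_map]
      rfl
    exact h4
  rw [h3, map_zero]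

/-- For every homomorphism of the ring of algebraic integers onto a field of characteristic `p`
there is a faithful character whose values reduce to their arguments. -/
theorem exists_character {p : ℕ} [Fact p.Prime] {κ : Type} [Field κ] [CharP κ p]
    (φ : integralClosure ℤ L →+* κ) (hφ : Function.Surjective φ) {K : Type} [Field K] [Fintype K]
    [CharP K p] : ∃ (ι : K →+* κ) (τ : Kˣ →* Lˣ), Function.Injective τ ∧
      ∀ t : Kˣ, res φ ((τ t : Lˣ) : L) = ι t := by
  classical
  have := isAlgClosed_of_surjective φ hφ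
  let : Algebra (ZMod p) K := ZMod.algebra K p
  let : Algebra (ZMod p) κ := ZMod.algebra κ p
  have : Algebra.IsAlgebraic (ZMod p) K := Algebra.IsAlgebraic.of_finite (ZMod p) K
  let ι : K →+* κ := (IsAlgClosed.lift (R := ZMod p) (S := K) (M := κ)).toRingHom
  obtain ⟨g, hg⟩ := IsCyclic.exists_generator (α := Kˣ)
  set n := Fintype.card Kˣ with hn
  have hnpos : 0 < n := Fintype.card_pos
  have hordg : orderOf g = n := (orderOf_eq_card_of_forall_mem_zpowers hg).trans
    Nat.card_eq_fintype_card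
  have : NeZero (n : L) := ⟨Nat.cast_ne_zero.2 hnpos.ne'⟩
  have hnκ : (n : κ) ≠ 0 := by
    intro h0
    rw [CharP.cast_eq_zero_iff κ p] at h0
    obtain ⟨M, _, hM⟩ := FiniteField.card K p
    have h1 : n + 1 = p ^ (M : ℕ) := by
      rw [hn, Fintype.card_units, hM]
      have : 0 < p ^ (M : ℕ) := pow_pos (Fact.out : p.Prime).pos _
      omega
    have h2 : p ∣ n + 1 := by
      rw [h1]
      exact dvd_pow_self p M.ne_zero
    have h3 : p ∣ 1 := (Nat.dvd_add_right h0).1 h2
    exact (Fact.out : p.Prime).one_lt.ne' (Nat.dvd_one.1 h3)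
  have : NeZero (n : κ) := ⟨hnκ⟩
  obtain ⟨ζ, hζ⟩ := HasEnoughRootsOfUnity.exists_primitiveRoot L n
  have hζi : IsIntegral ℤ ζ := hζ.isIntegral hnpos
  let z : integralClosure ℤ L := ⟨ζ, hζi⟩
  have hz : IsPrimitiveRoot (φ z) n := by
    rw [← isRoot_cyclotomic_iff, IsRoot.def]
    have h1 : (cyclotomic n (integralClosure ℤ L)).eval z = 0 := by
      apply Subtype.val_injective (p := fun y => y ∈ integralClosure ℤ L)
      have h2 : algebraMap (integralClosure ℤ L) L ((cyclotomic n (integralClosure ℤ L)).eval z) =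
          0 := by
        have h3 := isRoot_cyclotomic_iff.2 hζ
        rw [IsRoot.def, ← map_cyclotomic n (algebraMap (integralClosure ℤ L) L)] at h3
        rw [← h3, eval_map, ← eval₂_hom, eval₂_eq_eval_map, eval₂_eq_eval_map]
        rfl
      exact h2
    have h2 := congrArg φ h1
    rw [map_zero, ← eval₂_hom, ← eval_map, map_cyclotomic] at h2
    exact h2
  have hιg : (ι g) ^ n = 1 := by
    rw [← map_pow, ← Units.val_pow_eq_pow_val, ← hordg, pow_orderOf_eq_one, Units.val_one, map_one]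
  obtain ⟨b, hb, hbe⟩ := hz.eq_pow_of_pow_eq_one hιg
  have hιp : IsPrimitiveRoot (ι g) n := by
    have h1 := IsPrimitiveRoot.orderOf g
    rw [hordg] at h1
    exact (IsPrimitiveRoot.coe_units_iff.2 h1).map_of_injective ι.injective
  have hcop : b.Coprime n := by
    rw [← hbe] at hιp
    exact (hz.pow_iff_coprime hnpos b).1 hιp
  have hξ : IsPrimitiveRoot (ζ ^ b) n := hζ.pow_of_coprime b hcop
  obtain ⟨η, hη⟩ : ∃ η : Lˣ, (η : L) = ζ ^ b := ⟨(hξ.isUnit hnpos.ne').unit, rfl⟩
  have hη' : IsPrimitiveRoot η n := IsPrimitiveRoot.coe_units_iff.1 (by rw [hη]; exact hξ)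
  have hordη : orderOf η = n := hη'.eq_orderOf.symm
  let τ : Kˣ →* Lˣ := monoidHomOfForallMemZpowers hg (g' := η) (by rw [hordη, hordg])
  have hτ : τ g = η := monoidHomOfForallMemZpowers_apply_gen hg _
  refine ⟨ι, τ, ?_, ?_⟩
  · rw [injective_iff_map_eq_one]
    intro t ht
    obtain ⟨j, rfl⟩ := Subgroup.mem_zpowers_iff.1 (hg t)
    rw [map_zpow, hτ] at ht
    have h1 := orderOf_dvd_iff_zpow_eq_one.2 ht
    rw [hordη, ← hordg] at h1
    exact orderOf_dvd_iff_zpow_eq_one.1 h1
  · intro t
    obtain ⟨j, hj⟩ := (mem_powers_iff_mem_zpowers.2 (hg t))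
    have hj' : g ^ j = t := hj
    rw [← hj', map_pow, hτ, Units.val_pow_eq_pow_val, Units.val_pow_eq_pow_val, map_pow, ← hbe,
      hη, res_pow _ (hζi.pow b), res_pow _ hζi, res_eq _ hζi]

omit [CharZero L] [IsAlgClosed L] in
/-- every character is a power of a given faithful one -/
theorem exists_exponent {K : Type} [Field K] [Fintype K] {τ : Kˣ →* Lˣ}
    (hτ : Function.Injective τ) (ψ : Kˣ →* Lˣ) (hψ : ψ ≠ 1) :
    ∃ D, ψ = τ ^ D ∧ 0 < D ∧ D < Fintype.card K - 1 := by
  classical
  obtain ⟨g, hg⟩ := IsCyclic.exists_generator (α := Kˣ)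
  set n := Fintype.card Kˣ with hn
  have hnpos : 0 < n := Fintype.card_pos
  have hordg : orderOf g = n := (orderOf_eq_card_of_forall_mem_zpowers hg).trans
    Nat.card_eq_fintype_card
  have hordη : orderOf (τ g) = n := by rw [orderOf_injective τ hτ, hordg]
  have hη : IsPrimitiveRoot ((τ g : Lˣ) : L) n := by
    have h1 := IsPrimitiveRoot.orderOf (τ g)
    rw [hordη] at h1
    exact IsPrimitiveRoot.coe_units_iff.2 h1
  have hψg : (ψ g : Lˣ) ^ n = 1 := by
    rw [← map_pow, ← hordg, pow_orderOf_eq_one, map_one]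
  have : NeZero n := ⟨hnpos.ne'⟩
  obtain ⟨D, hD, hDe⟩ := hη.eq_pow_of_pow_eq_one (ξ := ((ψ g : Lˣ) : L)) (by
    rw [← Units.val_pow_eq_pow_val, hψg, Units.val_one])
  have heq : ψ = τ ^ D := by
    apply MonoidHom.ext
    intro t
    obtain ⟨j, rfl⟩ := Subgroup.mem_zpowers_iff.1 (hg t)
    rw [map_zpow, map_zpow, MonoidHom.pow_apply]
    congr 1
    apply Units.ext
    rw [Units.val_pow_eq_pow_val, hDe]
  refine ⟨D, heq, ?_, ?_⟩
  · rw [Nat.pos_iff_ne_zero]
    rintro rfl
    apply hψ
    rw [heq]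
    apply MonoidHom.ext
    intro t
    rw [MonoidHom.pow_apply, pow_zero, MonoidHom.one_apply]
  · rw [← Fintype.card_units]
    exact hD

end

end Pool.Agent.Helper73.HD
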