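import Mathlib

/-!
# Powers of faithful characters
-/

namespace Pool.Agent.Helper73.HD

/-- a nontrivial character of the multiplicative group of a finite field is a power of a
faithful one -/
theorem exists_faithful {L K : Type} [Field L] [CharZero L] [IsAlgClosed L] [Field K]
    [Fintype K] (ψ : Kˣ →* Lˣ) (hψ : ψ ≠ 1) :
    ∃ (τ : Kˣ →* Lˣ) (D : ℕ), Function.Injective τ ∧ ψ = τ ^ D ∧ 0 < D ∧
      D < Fintype.card K - 1 := by
  classical
  obtain ⟨g, hg⟩ := IsCyclic.exists_generator (α := Kˣ)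
  set n := Fintype.card Kˣ with hn
  have hnpos : 0 < n := Fintype.card_pos
  have hordg : orderOf g = n := (orderOf_eq_card_of_forall_mem_zpowers hg).trans
    Nat.card_eq_fintype_card
  have : NeZero (n : L) := ⟨Nat.cast_ne_zero.2 hnpos.ne'⟩
  obtain ⟨ζ, hζ⟩ := HasEnoughRootsOfUnity.exists_primitiveRoot L n
  obtain ⟨η, hη⟩ : ∃ η : Lˣ, (η : L) = ζ := ⟨hζ.isUnit hnpos.ne' |>.unit, rfl⟩
  have hη' : IsPrimitiveRoot η n := IsPrimitiveRoot.coe_units_iff.1 (by rw [hη]; exact hζ)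
  have hordη : orderOf η = n := hη'.eq_orderOf.symm
  let τ : Kˣ →* Lˣ := monoidHomOfForallMemZpowers hg (g' := η) (by rw [hordη, hordg])
  have hτ : τ g = η := monoidHomOfForallMemZpowers_apply_gen hg _
  have hψg : (ψ g : Lˣ) ^ n = 1 := by
    rw [← map_pow, ← hordg, pow_orderOf_eq_one, map_one]
  obtain ⟨D, hD, hDe⟩ := hζ.eq_pow_of_pow_eq_one (ξ := ((ψ g : Lˣ) : L)) (by
    rw [← Units.val_pow_eq_pow_val, hψg, Units.val_one])
  have hψη : ψ g = η ^ D := by
    apply Units.ext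
    rw [Units.val_pow_eq_pow_val, hη, hDe]
  have heq : ψ = τ ^ D := by
    apply MonoidHom.ext
    intro t
    obtain ⟨j, rfl⟩ := Subgroup.mem_zpowers_iff.1 (hg t)
    rw [map_zpow, map_zpow, MonoidHom.pow_apply, hτ, hψη]
  refine ⟨τ, D, ?_, heq, ?_, ?_⟩
  · rw [injective_iff_map_eq_one]
    intro t ht
    obtain ⟨j, rfl⟩ := Subgroup.mem_zpowers_iff.1 (hg t)
    rw [map_zpow, hτ] at ht
    have h1 := orderOf_dvd_iff_zpow_eq_one.2 ht
    rw [hordη, ← hordg] at h1
    exact orderOf_dvd_iff_zpow_eq_one.1 h1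
  · rw [Nat.pos_iff_ne_zero]
    rintro rfl
    apply hψ
    rw [heq]
    apply MonoidHom.ext
    intro t
    rw [MonoidHom.pow_apply, pow_zero, MonoidHom.one_apply]
  · rw [← Fintype.card_units]
    exact hD

end Pool.Agent.Helper73.HD
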