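import Pool.Agent.Helper73.HD.Newton

/-!
# Multiple roots of small slope
-/

open Polynomial

namespace Pool.Agent.Helper73.HD

section

variable {L : Type*} [Field L]

open Classical in
/-- the number of roots of `P`, with multiplicities, which have the valuation of `c` -/
noncomputable def sameVal (V : ValuationSubring L) (P : L[X]) (c : L) : ℕ :=
  (P.roots.filter fun b => V.valuation b = V.valuation c).card

variable [IsAlgClosed L] {V : ValuationSubring L}

theorem eq_pol {P : L[X]} (hP : P.Monic) : P = pol P.roots := by
  rw [pol]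
  exact (IsAlgClosed.splits P).eq_prod_roots_of_monic hP

omit [IsAlgClosed L] in
open Classical in
theorem val_prod_split (P : L[X]) (c : L) :
    ((P.roots.filter fun b => V.valuation c ≤ V.valuation b).map fun b => V.valuation b).prod =
      ((P.roots.filter fun b => V.valuation c < V.valuation b).map fun b => V.valuation b).prod *
        V.valuation c ^ sameVal V P c := by
  rw [sameVal]
  induction P.roots using Multiset.induction_on with
  | empty => simp
  | cons b S ih =>
    rcases lt_trichotomy (V.valuation c) (V.valuation b) with h | h | h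
    · rw [Multiset.filter_cons_of_pos (p := fun b => V.valuation c ≤ V.valuation b) _ h.le,
        Multiset.filter_cons_of_pos (p := fun b => V.valuation c < V.valuation b) _ h,
        Multiset.filter_cons_of_neg (p := fun b => V.valuation b = V.valuation c) _ h.ne',
        Multiset.map_cons, Multiset.prod_cons, ih, Multiset.map_cons, Multiset.prod_cons,
        mul_assoc]
    · rw [Multiset.filter_cons_of_pos (p := fun b => V.valuation c ≤ V.valuation b) _ h.le,
        Multiset.filter_cons_of_neg (p := fun b => V.valuation c < V.valuation b) _ h.not_lt,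
        Multiset.filter_cons_of_pos (p := fun b => V.valuation b = V.valuation c) _ h.symm,
        Multiset.map_cons, Multiset.prod_cons, ih, Multiset.card_cons, pow_succ', ← h]
      ac_rfl
    · rw [Multiset.filter_cons_of_neg (p := fun b => V.valuation c ≤ V.valuation b) _ h.not_ge,
        Multiset.filter_cons_of_neg (p := fun b => V.valuation c < V.valuation b) _ h.not_gt,
        Multiset.filter_cons_of_neg (p := fun b => V.valuation b = V.valuation c) _ h.ne, ih]

open Classical in
theorem val_ge {P : L[X]} (hP : P.Monic) {c : L} (hc : c ≠ 0) :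
    V.valuation (P.coeff (P.roots.filter fun b => ¬ V.valuation c ≤ V.valuation b).card) =
      ((P.roots.filter fun b => V.valuation c ≤ V.valuation b).map fun b =>
        V.valuation b).prod := by
  have h1 := val_coeff (V := V) hc
    (S := P.roots.filter fun b => V.valuation c ≤ V.valuation b)
    (T := P.roots.filter fun b => ¬ V.valuation c ≤ V.valuation b)
    (fun b hb => (Multiset.mem_filter.1 hb).2)
    (fun b hb => (not_le.1 (Multiset.mem_filter.1 hb).2).le)
    (Or.inr fun b hb => not_le.1 (Multiset.mem_filter.1 hb).2)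
  rw [Multiset.filter_add_not, ← eq_pol hP] at h1
  exact h1

open Classical in
theorem val_gt {P : L[X]} (hP : P.Monic) {c : L} (hc : c ≠ 0) :
    V.valuation (P.coeff (P.roots.filter fun b => ¬ V.valuation c < V.valuation b).card) =
      ((P.roots.filter fun b => V.valuation c < V.valuation b).map fun b =>
        V.valuation b).prod := by
  have h1 := val_coeff (V := V) hc
    (S := P.roots.filter fun b => V.valuation c < V.valuation b)
    (T := P.roots.filter fun b => ¬ V.valuation c < V.valuation b)
    (fun b hb => (Multiset.mem_filter.1 hb).2.le)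
    (fun b hb => not_lt.1 (Multiset.mem_filter.1 hb).2)
    (Or.inl fun b hb => (Multiset.mem_filter.1 hb).2)
  rw [Multiset.filter_add_not, ← eq_pol hP] at h1
  exact h1

omit [IsAlgClosed L] in
theorem prod_ne_zero {S : Multiset L} (h : ∀ b ∈ S, b ≠ 0) :
    (S.map fun b => V.valuation b).prod ≠ 0 := by
  induction S using Multiset.induction_on with
  | empty => simp
  | cons b S ih =>
    rw [Multiset.map_cons, Multiset.prod_cons]
    exact mul_ne_zero ((Valuation.ne_zero_iff _).2 (h b (Multiset.mem_cons_self b S)))
      (ih fun c hc => h c (Multiset.mem_cons_of_mem hc))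

/-- the valuation of a root in an unramified field -/
theorem val_pow_mem {E : Subfield L} {ϖ : L} (hϖ : ϖ ≠ 0)
    (hE : ∀ x ∈ E, x ≠ 0 → ∃ n : ℤ, V.valuation x = V.valuation ϖ ^ n) {P : L[X]} (hP : P.Monic)
    (hcoeff : ∀ j, P.coeff j ∈ E) {c : L} (hc : c ≠ 0) :
    ∃ l : ℤ, V.valuation c ^ sameVal V P c = V.valuation ϖ ^ l := by
  classical
  have hvc : V.valuation c ≠ 0 := (Valuation.ne_zero_iff _).2 hc
  have hpos : ∀ b, V.valuation c ≤ V.valuation b → b ≠ 0 := by
    rintro b hb rfl
    rw [map_zero] at hb
    exact hvc (le_antisymm hb zero_le)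
  have hge := val_ge (V := V) hP hc
  have hgt := val_gt (V := V) hP hc
  have h1 := prod_ne_zero (V := V)
    (S := P.roots.filter fun b => V.valuation c ≤ V.valuation b)
    (fun b hb => hpos b (Multiset.mem_filter.1 hb).2)
  have h2 := prod_ne_zero (V := V)
    (S := P.roots.filter fun b => V.valuation c < V.valuation b)
    (fun b hb => hpos b (Multiset.mem_filter.1 hb).2.le)
  obtain ⟨n1, hn1⟩ := hE _ (hcoeff _) ((Valuation.ne_zero_iff V.valuation).1 (by rw [hge]; exact h1))
  obtain ⟨n2, hn2⟩ := hE _ (hcoeff _) ((Valuation.ne_zero_iff V.valuation).1 (by rw [hgt]; exact h2))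
  have hϖ' : V.valuation ϖ ≠ 0 := (Valuation.ne_zero_iff _).2 hϖ
  refine ⟨n1 - n2, ?_⟩
  have h3 := val_prod_split (V := V) P c
  rw [← hge, ← hgt, hn1, hn2] at h3
  rw [zpow_sub₀ hϖ', h3, mul_comm, mul_div_assoc, div_self (zpow_ne_zero _ hϖ'), mul_one]

omit [IsAlgClosed L] in
/-- the number of roots with the given valuation is at least twice that of the minimal
polynomial -/
theorem two_mul_sameVal [CharZero L] {E : Subfield L} {P : L[X]} (hP : P.Monic)
    (hcoeff : ∀ j, P.coeff j ∈ E) {a : L} (ha : (X - C a) ^ 2 ∣ P) (c : L) :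
    2 * sameVal V ((minpoly E a).map (algebraMap E L)) c ≤ sameVal V P c := by
  classical
  obtain ⟨P', hP'⟩ : ∃ P' : E[X], P'.map (algebraMap E L) = P := by
    have h1 : P ∈ lifts (algebraMap E L) := by
      rw [lifts_iff_coeff_lifts]
      intro i
      exact ⟨⟨P.coeff i, hcoeff i⟩, rfl⟩
    rw [mem_lifts] at h1
    exact h1
  have hP'0 : P' ≠ 0 := by
    rintro rfl
    rw [Polynomial.map_zero] at hP'
    exact hP.ne_zero hP'.symm
  have hroot : aeval a P' = 0 := by
    rw [aeval_def, eval₂_eq_eval_map, hP', ← IsRoot.def, ← dvd_iff_isRoot]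
    exact (dvd_pow_self _ two_ne_zero).trans ha
  have hint : IsIntegral E a := by
    have : IsAlgebraic E a := ⟨P', hP'0, hroot⟩
    exact this.isIntegral
  set g := minpoly E a with hg
  obtain ⟨h, hh⟩ := minpoly.dvd E a hroot
  -- `a` is a root of the second factor
  have hsep : g.Separable := (minpoly.irreducible hint).separable
  have hroot' : aeval a h = 0 := by
    have h1 : (derivative P').aeval a = 0 := by
      have h2 : (derivative P).eval a = 0 := by
        obtain ⟨R, hR⟩ := ha
        rw [hR, derivative_mul, derivative_pow]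
        simp
      rw [aeval_def, eval₂_eq_eval_map, ← derivative_map, hP', h2]
    rw [hh, derivative_mul, map_add, map_mul, map_mul, minpoly.aeval, zero_mul, add_zero] at h1
    have h2 : aeval a (derivative g) ≠ 0 := by
      intro h3
      obtain ⟨u, v, huv⟩ := hsep
      have h4 := congrArg (aeval a) huv
      rw [map_add, map_mul, map_mul, minpoly.aeval, h3, mul_zero, mul_zero, add_zero, map_one] at h4
      exact zero_ne_one h4
    exact (mul_eq_zero.1 h1).resolve_left h2
  obtain ⟨h', hh'⟩ := minpoly.dvd E a hroot'
  rw [hh', ← mul_assoc] at hh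
  have h1 : P = (g.map (algebraMap E L)) * (g.map (algebraMap E L)) *
      (h'.map (algebraMap E L)) := by
    rw [← hP', hh, Polynomial.map_mul, Polynomial.map_mul]
  have hP0 : (g.map (algebraMap E L)) * (g.map (algebraMap E L)) *
      (h'.map (algebraMap E L)) ≠ 0 := by
    rw [← h1]; exact hP.ne_zero
  have hr : P.roots = (g.map (algebraMap E L)).roots + (g.map (algebraMap E L)).roots +
      (h'.map (algebraMap E L)).roots := by
    have h2 : (g.map (algebraMap E L)) * (g.map (algebraMap E L)) ≠ 0 := left_ne_zero_of_mul hP0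
    conv_lhs => rw [h1]
    rw [roots_mul hP0, roots_mul h2]
  rw [sameVal, sameVal, hr, Multiset.filter_add, Multiset.filter_add, Multiset.card_add,
    Multiset.card_add]
  omega

/-- a multiple root does not have slope less than one if the heights are prime to `M` -/
theorem val_le [CharZero L] {E : Subfield L} {p : ℕ} (hp0 : (p : L) ≠ 0)
    (hVp : V.valuation (p : L) < 1)
    (hE : ∀ x ∈ E, x ≠ 0 → ∃ n : ℤ, V.valuation x = V.valuation (p : L) ^ n) {P : L[X]}
    (hP : P.Monic) (hcoeff : ∀ j, P.coeff j ∈ E) {D M : ℕ} (hdeg : P.natDegree = D)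
    (hM : 0 < M)
    (hodge : ∀ j < D, V.valuation (P.coeff j) ≤ V.valuation ((p : L) ^ M) ^ (D - 1 - j))
    (hodge0 : V.valuation (P.coeff 0) ≤ V.valuation ((p : L) ^ M) ^ D) {a : L}
    (hnewton : ∃ k : ℕ, V.valuation a ^ sameVal V P a = V.valuation ((p : L) ^ M) ^ k)
    (hcop : ∀ h, 2 ≤ h → h < D → M.Coprime h) (ha : (X - C a) ^ 2 ∣ P) :
    V.valuation a ≤ V.valuation ((p : L) ^ M) := by
  classical
  by_contra hlt
  push Not at hlt
  set π := V.valuation (p : L) with hπ
  have hπ0 : π ≠ 0 := (Valuation.ne_zero_iff _).2 hp0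
  have hπpos : 0 < π := zero_lt_iff.2 hπ0
  set Q := V.valuation ((p : L) ^ M) with hQ
  have hQπ : Q = π ^ M := by rw [hQ, map_pow]
  have hQ0 : Q ≠ 0 := by rw [hQπ]; exact pow_ne_zero _ hπ0
  have hQpos : 0 < Q := zero_lt_iff.2 hQ0
  have hQ1 : Q < 1 := by rw [hQπ]; exact pow_lt_one₀ zero_le hVp hM.ne'
  have ha0 : a ≠ 0 := by
    rintro rfl
    rw [map_zero] at hlt
    exact absurd hlt (not_lt.2 zero_le)
  have hva0 : V.valuation a ≠ 0 := (Valuation.ne_zero_iff _).2 ha0
  have hanti : StrictAnti fun n : ℕ => Q ^ n := pow_right_strictAnti₀ hQpos hQ1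
  set N := sameVal V P a with hN
  -- the coefficient at the break
  have hge := val_ge (V := V) hP ha0
  have hsplit := val_prod_split (V := V) P a
  set S := P.roots.filter fun b => V.valuation a ≤ V.valuation b with hS
  set T := P.roots.filter fun b => ¬ V.valuation a ≤ V.valuation b with hT
  set U := P.roots.filter fun b => V.valuation a < V.valuation b with hU
  have hcard : S.card + T.card = D := by
    rw [← Multiset.card_add, hS, hT, Multiset.filter_add_not, ← hdeg]
    exact (IsAlgClosed.splits P).natDegree_eq_card_roots.symm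
  have hcardS : S.card = U.card + N := by
    have h1 : ∀ R : Multiset L, (R.filter fun b => V.valuation a ≤ V.valuation b).card =
        (R.filter fun b => V.valuation a < V.valuation b).card +
          (R.filter fun b => V.valuation b = V.valuation a).card := by
      intro R
      induction R using Multiset.induction_on with
      | empty => simp
      | cons b R ih =>
        rcases lt_trichotomy (V.valuation a) (V.valuation b) with h | h | h
        · rw [Multiset.filter_cons_of_pos (p := fun b => V.valuation a ≤ V.valuation b) _ h.le,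
            Multiset.filter_cons_of_pos (p := fun b => V.valuation a < V.valuation b) _ h,
            Multiset.filter_cons_of_neg (p := fun b => V.valuation b = V.valuation a) _ h.ne',
            Multiset.card_cons, Multiset.card_cons, ih]
          omega
        · rw [Multiset.filter_cons_of_pos (p := fun b => V.valuation a ≤ V.valuation b) _ h.le,
            Multiset.filter_cons_of_neg (p := fun b => V.valuation a < V.valuation b) _ h.not_lt,
            Multiset.filter_cons_of_pos (p := fun b => V.valuation b = V.valuation a) _ h.symm,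
            Multiset.card_cons, Multiset.card_cons, ih]
          omega
        · rw [Multiset.filter_cons_of_neg (p := fun b => V.valuation a ≤ V.valuation b) _
              h.not_ge,
            Multiset.filter_cons_of_neg (p := fun b => V.valuation a < V.valuation b) _ h.not_gt,
            Multiset.filter_cons_of_neg (p := fun b => V.valuation b = V.valuation a) _ h.ne, ih]
    exact h1 P.roots
  -- the minimal polynomial
  obtain ⟨P', hP'⟩ : ∃ P' : E[X], P'.map (algebraMap E L) = P := by
    have h1 : P ∈ lifts (algebraMap E L) := by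
      rw [lifts_iff_coeff_lifts]
      intro i
      exact ⟨⟨P.coeff i, hcoeff i⟩, rfl⟩
    rw [mem_lifts] at h1
    exact h1
  have hint : IsIntegral E a := by
    have h0 : P' ≠ 0 := by
      rintro rfl
      rw [Polynomial.map_zero] at hP'
      exact hP.ne_zero hP'.symm
    have hroot : aeval a P' = 0 := by
      rw [aeval_def, eval₂_eq_eval_map, hP', ← IsRoot.def, ← dvd_iff_isRoot]
      exact (dvd_pow_self _ two_ne_zero).trans ha
    have : IsAlgebraic E a := ⟨P', h0, hroot⟩
    exact this.isIntegral
  set g := (minpoly E a).map (algebraMap E L) with hg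
  have hgm : g.Monic := (minpoly.monic hint).map _
  have h2N := two_mul_sameVal (V := V) hP hcoeff ha a
  rw [← hN, ← hg] at h2N
  obtain ⟨l, hl⟩ := val_pow_mem (V := V) hp0 hE hgm (fun j => by
    rw [hg, coeff_map]; exact ((minpoly E a).coeff j).2) ha0
  set n := sameVal V g a with hn
  have hn1 : 1 ≤ n := by
    rw [hn, sameVal, Nat.one_le_iff_ne_zero, Multiset.card_eq_zero.ne]
    intro h0
    have h1 : a ∈ g.roots.filter fun b => V.valuation b = V.valuation a := by
      rw [Multiset.mem_filter]
      refine ⟨?_, rfl⟩
      rw [mem_roots hgm.ne_zero, IsRoot.def, hg, eval_map, ← aeval_def, minpoly.aeval]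
    rw [h0] at h1
    exact Multiset.notMem_zero _ h1
  have hN2 : 2 ≤ N := by omega
  -- the slope is `1 - 1 / N`
  obtain ⟨k, hk⟩ := hnewton
  have hkN : k < N := by
    have h1 : Q ^ N < V.valuation a ^ N := pow_lt_pow_left₀ hlt zero_le (by omega)
    rw [hk] at h1
    exact hanti.lt_iff_gt.1 h1
  have hkN' : N - 1 ≤ k := by
    have h1 := hodge T.card (by omega)
    have h2 : D - 1 - T.card = U.card + (N - 1) := by omega
    rw [hge, hsplit, ← hN, hk, h2, pow_add] at h1
    have h3 : Q ^ U.card ≤ (U.map fun b => V.valuation b).prod := by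
      have h4 : ∀ R : Multiset L, (∀ b ∈ R, V.valuation a < V.valuation b) →
          Q ^ R.card ≤ (R.map fun b => V.valuation b).prod := by
        intro R
        induction R using Multiset.induction_on with
        | empty => intro _; simp
        | cons b R ih =>
          intro hR
          rw [Multiset.card_cons, pow_succ', Multiset.map_cons, Multiset.prod_cons]
          exact mul_le_mul' ((hlt.trans (hR b (Multiset.mem_cons_self b R))).le)
            (ih fun c hc => hR c (Multiset.mem_cons_of_mem hc))
      exact h4 U fun b hb => (Multiset.mem_filter.1 hb).2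
    have h4 : Q ^ U.card * Q ^ k ≤ Q ^ U.card * Q ^ (N - 1) :=
      (mul_le_mul' h3 le_rfl).trans h1
    have h5 : Q ^ k ≤ Q ^ (N - 1) :=
      le_of_mul_le_mul_left h4 (pow_pos hQpos _)
    exact hanti.le_iff_ge.1 h5
  have hk1 : k = N - 1 := by omega
  -- `N` is less than `D`
  have hND : N < D := by
    have h1 : N ≤ D := by omega
    refine lt_of_le_of_ne h1 fun h2 => ?_
    have hT0 : T.card = 0 := by omega
    have hU0 : U = 0 := by
      rw [← Multiset.card_eq_zero]; omega
    rw [hT0, hsplit, hU0, Multiset.map_zero, Multiset.prod_zero, one_mul, ← hN, hk, hk1] at hge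
    rw [hge] at hodge0
    have h3 := hanti.le_iff_ge.1 hodge0
    omega
  have hcopN := hcop N hN2 hND
  -- the contradiction
  have h1 : π ^ (l * N) = π ^ ((M : ℤ) * (N - 1 : ℕ) * n) := by
    have h2 : (V.valuation a ^ n) ^ N = (V.valuation a ^ N) ^ n := by
      rw [← pow_mul, ← pow_mul, mul_comm]
    rw [hl, hk, hk1, hQπ] at h2
    rw [zpow_mul, zpow_natCast, h2, ← pow_mul, ← pow_mul, ← zpow_natCast]
    push_cast
    rw [mul_assoc]
  have hinj : Function.Injective fun z : ℤ => π ^ z :=
    (zpow_right_strictAnti₀ hπpos hVp).injective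
  have h2 : l * N = (M : ℤ) * (N - 1 : ℕ) * n := hinj h1
  have h3 : (N : ℤ) ∣ ((M * (N - 1) * n : ℕ) : ℤ) := ⟨l, by push_cast; rw [← h2]; ring⟩
  have h4 : N ∣ M * (N - 1) * n := by exact_mod_cast h3
  have h5 : Nat.Coprime N (M * (N - 1)) := by
    apply Nat.Coprime.mul_right hcopN.symm
    have h6 : N = (N - 1) + 1 := by omega
    rw [Nat.coprime_comm]
    conv_rhs => rw [h6]
    exact Nat.coprime_self_add_right.2 (Nat.coprime_one_right _)
  have h6 : N ∣ n := h5.dvd_of_dvd_mul_left h4
  have h7 := Nat.le_of_dvd (by omega) h6
  omega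

end

end Pool.Agent.Helper73.HD
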