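import Pool.Agent.Helper73.KT.Glue

/-!
# One eigenvalue at a time
-/

open Module Polynomial

namespace Pool.Agent.Helper73.HD

open Pool.Agent.Helper73.KT

variable {L V : Type*} [Field L] [IsAlgClosed L] [AddCommGroup V] [Module L V]
    [FiniteDimensional L V]

omit [IsAlgClosed L] in
theorem no_jordan {f : End L V} {α : L} (h : f.eigenspace α ⊔
    LinearMap.range ((f - α • 1) ^ (finrank L V)) = ⊤) {x : V}
    (hx : (f - α • 1) ((f - α • 1) x) = 0) : (f - α • 1) x = 0 := by
  have h1 : x ∈ f.eigenspace α ⊔ LinearMap.range ((f - α • 1) ^ (finrank L V)) := by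
    rw [h]; exact Submodule.mem_top
  obtain ⟨y, hy, z, hz, rfl⟩ := Submodule.mem_sup.1 h1
  obtain ⟨w, rfl⟩ := hz
  have hy0 : (f - α • 1) y = 0 := by
    rw [LinearMap.sub_apply, LinearMap.smul_apply, End.one_apply, End.mem_eigenspace_iff.1 hy,
      sub_self]
  rw [map_add, hy0, zero_add] at hx ⊢
  have h2 : w ∈ LinearMap.ker ((f - α • 1) ^ (finrank L V + 2)) := by
    rw [LinearMap.mem_ker, add_comm, pow_add, End.mul_apply, pow_two, End.mul_apply]
    exact hx
  rw [End.ker_pow_eq_ker_pow_finrank_of_le (by omega), LinearMap.mem_ker] at h2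
  rw [h2, map_zero]

omit [IsAlgClosed L] [FiniteDimensional L V] in
theorem mem_range {f : End L V} {α a : L} {m r n : ℕ} (ha : a ≠ α ^ m) {x : V}
    (hx : ((f ^ m - a • 1) ^ r) x = 0) : x ∈ LinearMap.range ((f - α • 1) ^ n) := by
  have hcop : IsCoprime ((X - C α : L[X]) ^ n) ((X ^ m - C a) ^ r) := by
    apply IsCoprime.pow
    rw [(irreducible_X_sub_C α).coprime_iff_not_dvd, dvd_iff_isRoot, IsRoot.def, eval_sub,
      eval_pow, eval_X, eval_C, sub_eq_zero]
    exact fun h => ha h.symm
  obtain ⟨u, v, huv⟩ := hcop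
  have h1 := congrArg (fun g => (aeval f g) x) huv
  simp only [map_add, map_mul, map_pow, map_sub, aeval_X, aeval_C, map_one, LinearMap.add_apply,
    End.mul_apply, End.one_apply] at h1
  have h2 : algebraMap L (End L V) a = a • 1 := Algebra.algebraMap_eq_smul_one a
  have h3 : algebraMap L (End L V) α = α • 1 := Algebra.algebraMap_eq_smul_one α
  rw [h2, h3, hx, map_zero, add_zero] at h1
  refine ⟨aeval f u x, ?_⟩
  have hc : (f - α • 1) ^ n * aeval f u = aeval f u * (f - α • 1) ^ n := by
    have h4 : (f - α • 1) ^ n = aeval f ((X - C α) ^ n) := by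
      rw [map_pow, map_sub, aeval_X, aeval_C, h3]
    rw [h4, ← map_mul, mul_comm, map_mul]
  rw [← End.mul_apply, hc, End.mul_apply]
  exact h1

omit [IsAlgClosed L] [FiniteDimensional L V] in
theorem eigenspace_le_sup {f : End L V} (α β : L) {n : ℕ} : f.eigenspace β ≤
    f.eigenspace α ⊔ LinearMap.range ((f - α • 1) ^ n) := by
  by_cases h : β = α
  · rw [h]
    exact le_sup_left
  · refine le_trans ?_ le_sup_right
    intro x hx
    apply mem_range (m := 1) (r := 1) (a := β) (by rwa [pow_one])
    rw [pow_one, pow_one, LinearMap.sub_apply, LinearMap.smul_apply, End.one_apply,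
      End.mem_eigenspace_iff.1 hx, sub_self]

/-- one part -/
theorem part_le [CharZero L] {f : End L V} (hinj : Function.Injective f) {α : L} {m n : ℕ}
    (hm : 0 < m) {p : Submodule L V} (h : ∀ x ∈ p, (f ^ m) x ∈ p)
    (hs : ∀ x ∈ End.maxGenEigenspace ((f ^ m).restrict h) (α ^ m),
      (f ^ m).restrict h x = α ^ m • x) :
    p ≤ f.eigenspace α ⊔ LinearMap.range ((f - α • 1) ^ n) := by
  set S := f.eigenspace α ⊔ LinearMap.range ((f - α • 1) ^ n) with hS
  have htop : (⊤ : Submodule L p) ≤ S.comap p.subtype := by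
    rw [← End.iSup_maxGenEigenspace_eq_top ((f ^ m).restrict h)]
    refine iSup_le fun a x hx => ?_
    rw [Submodule.mem_comap, Submodule.subtype_apply]
    by_cases ha : a = α ^ m
    · rw [ha] at hx
      have h1 := hs x hx
      have h2 : (f ^ m) (x : V) = α ^ m • (x : V) := congrArg Subtype.val h1
      by_cases h0 : α ^ m = 0
      · rw [h0, zero_smul] at h2
        have h3 : Function.Injective (f ^ m) := by
          rw [End.coe_pow]
          exact hinj.iterate m
        have h4 : (x : V) = 0 := h3 (by rw [h2, map_zero])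
        rw [h4]
        exact Submodule.zero_mem _
      · have h3 : (x : V) ∈ ⨆ b, f.eigenspace b :=
          eigenspace_pow_le hm h0 (End.mem_eigenspace_iff.2 h2)
        exact (iSup_le fun b => eigenspace_le_sup α b) h3
    · rw [End.mem_maxGenEigenspace] at hx
      obtain ⟨r, hr⟩ := hx
      apply Submodule.mem_sup_right
      apply mem_range (m := m) (r := r) ha
      have h2 : ∀ (j : ℕ) (y : p), ((((f ^ m).restrict h - a • 1) ^ j) y : V) =
          ((f ^ m - a • 1) ^ j) (y : V) := by
        intro j
        induction j with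
        | zero => intro y; rfl
        | succ j ih =>
          intro y
          rw [pow_succ, End.mul_apply, ih, pow_succ, End.mul_apply]
          rfl
      rw [← h2, hr]
      rfl
  intro x hx
  exact htop (Submodule.mem_top (x := (⟨x, hx⟩ : p)))

end Pool.Agent.Helper73.HD
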