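import Pool.Agent.Helper73.HD.Unit

/-!
# A multiple eigenvalue at a place where the trace is a unit
-/

open Polynomial

namespace Pool.Agent.Helper73.HD

open Pool.Agent.Helper73.KT

section

variable {L κ : Type*} [Field L] [Field κ] (φ : integralClosure ℤ L →+* κ)

/-- the root of the reduction -/
theorem res_zero_of_double {P : L[X]} {D : ℕ} (hP : P.Monic) (hdeg : P.natDegree = D) {Q : L}
    (hQint : IsIntegral ℤ Q) (hQ : res φ Q = 0)
    (hodge : ∀ i < D, IsIntegral ℤ (P.coeff i / Q ^ (D - 1 - i))) (hQ0 : Q ≠ 0) {a : L}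
    (ha : IsIntegral ℤ a) (hroot : (X - C a) ^ 2 ∣ P) : res φ a = 0 := by
  by_contra hne
  have hcoeff : ∀ i < D, P.coeff i = Q ^ (D - 1 - i) * (P.coeff i / Q ^ (D - 1 - i)) := by
    intro i _
    rw [mul_div_cancel₀]
    exact pow_ne_zero _ hQ0
  have hint : ∀ i, IsIntegral ℤ (P.coeff i) := by
    intro i
    rcases lt_trichotomy i D with h | h | h
    · rw [hcoeff i h]
      exact (hQint.pow _).mul (hodge i h)
    · have h1 : P.coeff i = 1 := by
        rw [h, ← hdeg]
        exact hP.coeff_natDegree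
      rw [h1]
      exact isIntegral_one
    · rw [coeff_eq_zero_of_natDegree_lt (by omega)]
      exact isIntegral_zero
  -- the lift of `P`
  obtain ⟨P', hP'⟩ : ∃ P' : (integralClosure ℤ L)[X],
      P'.map (algebraMap (integralClosure ℤ L) L) = P := by
    have h1 : P ∈ lifts (algebraMap (integralClosure ℤ L) L) := by
      rw [lifts_iff_coeff_lifts]
      intro i
      exact ⟨⟨P.coeff i, hint i⟩, rfl⟩
    rw [mem_lifts] at h1
    exact h1
  set a' : integralClosure ℤ L := ⟨a, ha⟩ with ha'
  have hra : res φ a = φ a' := res_eq φ ha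
  have h1 : (X - C a') ^ 2 ∣ P' := by
    rw [← map_dvd_map (algebraMap (integralClosure ℤ L) L) Subtype.val_injective
      ((monic_X_sub_C a').pow 2), hP']
    rw [Polynomial.map_pow, Polynomial.map_sub, map_X, map_C]
    exact hroot
  have h2 : (X - C (φ a')) ^ 2 ∣ P'.map φ := by
    have h3 := Polynomial.map_dvd φ h1
    rw [Polynomial.map_pow, Polynomial.map_sub, map_X, map_C] at h3
    exact h3
  have hc : ∀ i, (P'.map φ).coeff i = res φ (P.coeff i) := by
    intro i
    rw [coeff_map, ← hP', coeff_map]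
    exact (res_coe φ _).symm
  rcases Nat.eq_zero_or_pos D with hD | hD
  · -- degree zero
    have h3 : P = 1 := by
      exact hP.natDegree_eq_zero.1 (by rw [hdeg, hD])
    rw [h3] at hroot
    have h4 := isUnit_of_dvd_one hroot
    rw [isUnit_pow_iff two_ne_zero] at h4
    exact (irreducible_X_sub_C a).not_isUnit h4
  have h3 : P'.map φ = X ^ (D - 1) * (X + C (res φ (P.coeff (D - 1)))) := by
    ext i
    rw [hc, mul_add, ← pow_succ, coeff_add, coeff_X_pow, mul_comm (X ^ (D - 1)), coeff_C_mul,
      coeff_X_pow]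
    have hD1 : D - 1 + 1 = D := by omega
    rw [hD1]
    rcases lt_trichotomy i D with h | h | h
    · rw [if_neg h.ne]
      by_cases hi : i = D - 1
      · rw [if_pos hi, hi]
        ring
      · rw [if_neg hi, hcoeff i h, res_mul φ (hQint.pow _) (hodge i h), res_pow φ hQint, hQ,
          zero_pow (by omega)]
        ring
    · rw [if_pos h, if_neg (by omega), h]
      have h4 : P.coeff D = 1 := by
        rw [← hdeg]
        exact hP.coeff_natDegree
      rw [h4]
      have h5 := res_natCast φ 1
      push_cast at h5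
      rw [h5]
      ring
    · rw [if_neg h.ne', if_neg (by omega), coeff_eq_zero_of_natDegree_lt (by omega)]
      have h5 := res_natCast φ 0
      push_cast at h5
      rw [h5]
      ring
  rw [h3] at h2
  rw [hra] at hne
  have hcop : IsCoprime ((X - C (φ a')) ^ 2) ((X : κ[X]) ^ (D - 1)) := by
    apply IsCoprime.pow
    rw [(irreducible_X_sub_C (φ a')).coprime_iff_not_dvd, dvd_iff_isRoot, IsRoot.def, eval_X]
    exact hne
  have h4 := hcop.dvd_of_dvd_mul_left h2
  have h5 := Polynomial.natDegree_le_of_dvd h4 (X_add_C_ne_zero _)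
  rw [natDegree_pow, natDegree_X_sub_C, natDegree_X_add_C] at h5
  omega

/-- a root whose residue vanishes is divisible by `Q` at the place -/
theorem local_integral {P : L[X]} {D : ℕ} (hP : P.Monic) (hdeg : P.natDegree = D) (hD : 0 < D)
    {Q : L} (hQ0 : Q ≠ 0) (hodge : ∀ i < D, IsIntegral ℤ (P.coeff i / Q ^ (D - 1 - i))) {a : L}
    (ha : IsIntegral ℤ a) (hroot : P.eval a = 0) (htr : res φ (P.coeff (D - 1)) ≠ 0)
    (hra : res φ a = 0) : ∃ s : integralClosure ℤ L, φ s ≠ 0 ∧ IsIntegral ℤ ((s : L) * (a / Q)) := by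
  set x := a / Q with hx
  have hax : a = Q * x := by rw [hx, mul_div_cancel₀ _ hQ0]
  let e : ℕ → integralClosure ℤ L := fun i =>
    if h : i < D then ⟨P.coeff i / Q ^ (D - 1 - i), hodge i h⟩ else 0
  have he : ∀ i < D, ((e i : integralClosure ℤ L) : L) = P.coeff i / Q ^ (D - 1 - i) := by
    intro i hi
    simp only [e, dif_pos hi]
  have hlast : ((e (D - 1) : integralClosure ℤ L) : L) = P.coeff (D - 1) := by
    rw [he _ (by omega), Nat.sub_self, pow_zero, div_one]
  set s : integralClosure ℤ L := ⟨a, ha⟩ + e (D - 1) with hs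
  have hsL : (s : L) = a + P.coeff (D - 1) := by
    rw [hs, ← hlast]
    rfl
  have hint : IsIntegral ℤ (P.coeff (D - 1)) := by
    rw [← hlast]
    exact (e (D - 1)).2
  have hφs : φ s ≠ 0 := by
    rw [← res_coe φ s, hsL, res_add φ ha hint, hra, zero_add]
    exact htr
  have hs0 : s ≠ 0 := by
    intro h
    rw [h, map_zero] at hφs
    exact hφs rfl
  refine ⟨s, hφs, ?_⟩
  set R : (integralClosure ℤ L)[X] := ∑ i ∈ Finset.range (D - 1), C (e i) * X ^ i with hR
  have hRdeg : R.degree < (D - 1 : ℕ) := by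
    rw [hR]
    refine (degree_sum_le _ _).trans_lt ?_
    rw [Finset.sup_lt_iff (WithBot.bot_lt_coe _)]
    intro i hi
    refine (degree_C_mul_X_pow_le i (e i)).trans_lt ?_
    exact_mod_cast Finset.mem_range.1 hi
  have hG : aeval x (C s * X ^ (D - 1) + R) = 0 := by
    rw [map_add, map_mul, aeval_C, map_pow, aeval_X, hR, map_sum]
    have h1 : (algebraMap (integralClosure ℤ L) L) s = a + P.coeff (D - 1) := hsL
    rw [h1]
    have h2 : Q ^ (D - 1) * ((a + P.coeff (D - 1)) * x ^ (D - 1) +
        ∑ i ∈ Finset.range (D - 1), aeval x (C (e i) * X ^ i)) = P.eval a := by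
      have h3 : D = D - 1 + 1 := by omega
      rw [eval_eq_sum_range, hdeg, Finset.sum_range_succ]
      have h4 : P.coeff D = 1 := by
        rw [← hdeg]
        exact hP.coeff_natDegree
      rw [h4, one_mul]
      have h5 : ∑ i ∈ Finset.range D, P.coeff i * a ^ i =
          ∑ i ∈ Finset.range (D - 1), P.coeff i * a ^ i + P.coeff (D - 1) * a ^ (D - 1) := by
        conv_lhs => rw [h3]
        rw [Finset.sum_range_succ]
      rw [h5, mul_add, Finset.mul_sum]
      have h6 : ∑ i ∈ Finset.range (D - 1), Q ^ (D - 1) * aeval x (C (e i) * X ^ i) =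
          ∑ i ∈ Finset.range (D - 1), P.coeff i * a ^ i := by
        refine Finset.sum_congr rfl fun i hi => ?_
        rw [Finset.mem_range] at hi
        rw [map_mul, aeval_C, map_pow, aeval_X]
        have h7 : (algebraMap (integralClosure ℤ L) L) (e i) = P.coeff i / Q ^ (D - 1 - i) :=
          he i (by omega)
        rw [h7, hax, mul_pow]
        have h8 : Q ^ (D - 1) = Q ^ (D - 1 - i) * Q ^ i := by
          rw [← pow_add]
          congr 1
          omega
        have h9 : Q ^ (D - 1 - i) ≠ 0 := pow_ne_zero _ hQ0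
        rw [h8]
        field_simp
      rw [h6]
      have h7 : a ^ D = a * (Q * x) ^ (D - 1) := by
        rw [← hax, ← pow_succ']
        congr 1
      have h8 : a ^ (D - 1) = Q ^ (D - 1) * x ^ (D - 1) := by
        rw [hax, mul_pow]
      rw [h7, h8, mul_pow]
      ring
    rw [hroot] at h2
    exact (mul_eq_zero.1 h2).resolve_left (pow_ne_zero _ hQ0)
  have hlead : (C s * X ^ (D - 1) + R).leadingCoeff = s := by
    rw [leadingCoeff_add_of_degree_lt', leadingCoeff_C_mul_X_pow]
    rw [degree_C_mul_X_pow _ hs0]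
    exact hRdeg
  have h1 := isIntegral_leadingCoeff_smul (C s * X ^ (D - 1) + R) x hG
  rw [hlead, Algebra.smul_def] at h1
  exact isIntegral_trans _ h1

end

end Pool.Agent.Helper73.HD
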