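import Mathlib

/-!
# Newton polygons with respect to a valuation ring
-/

open Polynomial

namespace Pool.Agent.Helper73.HD

section

variable {L : Type*} [Field L] (V : ValuationSubring L)

/-- a polynomial with coefficients in the valuation ring and its reduction -/
def Rel (R : L[X]) (r : (IsLocalRing.ResidueField V)[X]) : Prop :=
  ∃ R' : V[X], R'.map V.subtype = R ∧ R'.map (IsLocalRing.residue V) = r

variable {V}

theorem Rel.mul {R S : L[X]} {r s : (IsLocalRing.ResidueField V)[X]} (h : Rel V R r)
    (h' : Rel V S s) : Rel V (R * S) (r * s) := by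
  obtain ⟨R', rfl, rfl⟩ := h
  obtain ⟨S', rfl, rfl⟩ := h'
  exact ⟨R' * S', Polynomial.map_mul _, Polynomial.map_mul _⟩

theorem Rel.one : Rel V 1 1 := ⟨1, Polynomial.map_one _, Polynomial.map_one _⟩

theorem rel_sub {b : L} (hb : V.valuation b ≤ 1) : ∃ y, Rel V (X - C b) (X - C y) := by
  have hb' : b ∈ V := V.mem_of_valuation_le_one b hb
  refine ⟨IsLocalRing.residue V ⟨b, hb'⟩, X - C ⟨b, hb'⟩, ?_, ?_⟩
  · rw [Polynomial.map_sub, map_X, map_C]
    rfl
  · rw [Polynomial.map_sub, map_X, map_C]

theorem rel_sub_lt {b : L} (hb : V.valuation b < 1) : Rel V (X - C b) X := by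
  have hb' : b ∈ V := V.mem_of_valuation_le_one b hb.le
  refine ⟨X - C ⟨b, hb'⟩, ?_, ?_⟩
  · rw [Polynomial.map_sub, map_X, map_C]
    rfl
  · rw [Polynomial.map_sub, map_X, map_C]
    have h1 : IsLocalRing.residue V ⟨b, hb'⟩ = 0 := by
      rw [IsLocalRing.residue_eq_zero_iff]
      exact (V.valuation_lt_one_iff ⟨b, hb'⟩).2 hb
    rw [h1, map_zero, sub_zero]

theorem rel_inv {b : L} (hb : 1 ≤ V.valuation b) : ∃ r, Rel V (1 - C b⁻¹ * X) r ∧ r.coeff 0 = 1 := by
  have hb1 : V.valuation b⁻¹ ≤ 1 := by
    rw [map_inv₀]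
    exact inv_le_one_of_one_le₀ hb
  have hb' : b⁻¹ ∈ V := V.mem_of_valuation_le_one _ hb1
  refine ⟨1 - C (IsLocalRing.residue V ⟨b⁻¹, hb'⟩) * X, ⟨1 - C ⟨b⁻¹, hb'⟩ * X, ?_, ?_⟩, ?_⟩
  · rw [Polynomial.map_sub, Polynomial.map_one, Polynomial.map_mul, map_X, map_C]
    rfl
  · rw [Polynomial.map_sub, Polynomial.map_one, Polynomial.map_mul, map_X, map_C]
  · rw [coeff_sub, coeff_one_zero, mul_coeff_zero, coeff_X_zero, mul_zero, sub_zero]

theorem rel_inv_lt {b : L} (hb : 1 < V.valuation b) : Rel V (1 - C b⁻¹ * X) 1 := by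
  have hb1 : V.valuation b⁻¹ < 1 := by
    rw [map_inv₀]
    exact inv_lt_one_of_one_lt₀ hb
  have hb' : b⁻¹ ∈ V := V.mem_of_valuation_le_one _ hb1.le
  refine ⟨1 - C ⟨b⁻¹, hb'⟩ * X, ?_, ?_⟩
  · rw [Polynomial.map_sub, Polynomial.map_one, Polynomial.map_mul, map_X, map_C]
    rfl
  · rw [Polynomial.map_sub, Polynomial.map_one, Polynomial.map_mul, map_X, map_C]
    have h1 : IsLocalRing.residue V ⟨b⁻¹, hb'⟩ = 0 := by
      rw [IsLocalRing.residue_eq_zero_iff]
      exact (V.valuation_lt_one_iff ⟨b⁻¹, hb'⟩).2 hb1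
    rw [h1, map_zero, zero_mul, sub_zero]

theorem val_of_rel {R : L[X]} {r : (IsLocalRing.ResidueField V)[X]} (h : Rel V R r) {n : ℕ}
    (hn : r.coeff n ≠ 0) : V.valuation (R.coeff n) = 1 := by
  obtain ⟨R', rfl, rfl⟩ := h
  rw [coeff_map] at hn ⊢
  rw [IsLocalRing.residue_ne_zero_iff_isUnit] at hn
  exact (V.valuation_eq_one_iff _).1 hn

/-- the polynomial with the given roots -/
noncomputable def pol (S : Multiset L) : L[X] := (S.map fun b => X - C b).prod

theorem pol_add (S T : Multiset L) : pol (S + T) = pol S * pol T := by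
  rw [pol, pol, pol, Multiset.map_add, Multiset.prod_add]

theorem pol_cons (b : L) (S : Multiset L) : pol (b ::ₘ S) = (X - C b) * pol S := by
  rw [pol, pol, Multiset.map_cons, Multiset.prod_cons]

theorem pol_zero : pol (0 : Multiset L) = 1 := by
  rw [pol, Multiset.map_zero, Multiset.prod_zero]

theorem rel_small_lt {S : Multiset L} (h : ∀ b ∈ S, V.valuation b < 1) :
    Rel V (pol S) (X ^ S.card) := by
  induction S using Multiset.induction_on with
  | empty => rw [pol_zero, Multiset.card_zero, pow_zero]; exact Rel.one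
  | cons b S ih =>
    rw [pol_cons, Multiset.card_cons, pow_succ']
    exact (rel_sub_lt (h b (Multiset.mem_cons_self b S))).mul
      (ih fun c hc => h c (Multiset.mem_cons_of_mem hc))

theorem rel_small {S : Multiset L} (h : ∀ b ∈ S, V.valuation b ≤ 1) :
    ∃ r, Rel V (pol S) r ∧ r.Monic ∧ r.natDegree = S.card := by
  induction S using Multiset.induction_on with
  | empty => exact ⟨1, by rw [pol_zero]; exact Rel.one, monic_one, natDegree_one⟩
  | cons b S ih =>
    obtain ⟨r, hr, hm, hd⟩ := ih fun c hc => h c (Multiset.mem_cons_of_mem hc)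
    obtain ⟨y, hy⟩ := rel_sub (h b (Multiset.mem_cons_self b S))
    refine ⟨(X - C y) * r, by rw [pol_cons]; exact hy.mul hr, (monic_X_sub_C y).mul hm, ?_⟩
    rw [(monic_X_sub_C y).natDegree_mul hm, natDegree_X_sub_C, hd, Multiset.card_cons, add_comm]

/-- the polynomial with the given roots, divided by its value at zero -/
noncomputable def qol (S : Multiset L) : L[X] := (S.map fun b => 1 - C b⁻¹ * X).prod

theorem pol_eq {S : Multiset L} (h : ∀ b ∈ S, b ≠ 0) :
    pol S = C ((S.map fun b => -b).prod) * qol S := by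
  induction S using Multiset.induction_on with
  | empty => rw [pol_zero, qol, Multiset.map_zero, Multiset.prod_zero, Multiset.map_zero,
      Multiset.prod_zero, map_one, one_mul]
  | cons b S ih =>
    have hb := h b (Multiset.mem_cons_self b S)
    rw [pol_cons, ih fun c hc => h c (Multiset.mem_cons_of_mem hc), qol, qol, Multiset.map_cons,
      Multiset.prod_cons, Multiset.map_cons, Multiset.prod_cons, map_mul]
    have h1 : (X - C b : L[X]) = C (-b) * (1 - C b⁻¹ * X) := by
      rw [mul_sub, mul_one, ← mul_assoc, ← map_mul, neg_mul, mul_inv_cancel₀ hb, map_neg, map_neg,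
        map_one]
      ring
    rw [h1]
    ring

theorem rel_large {S : Multiset L} (h : ∀ b ∈ S, 1 ≤ V.valuation b) :
    ∃ r, Rel V (qol S) r ∧ r.coeff 0 = 1 := by
  induction S using Multiset.induction_on with
  | empty => exact ⟨1, by rw [qol, Multiset.map_zero, Multiset.prod_zero]; exact Rel.one,
      coeff_one_zero⟩
  | cons b S ih =>
    obtain ⟨r, hr, hr0⟩ := ih fun c hc => h c (Multiset.mem_cons_of_mem hc)
    obtain ⟨s, hs, hs0⟩ := rel_inv (h b (Multiset.mem_cons_self b S))
    refine ⟨s * r, by rw [qol, Multiset.map_cons, Multiset.prod_cons]; exact hs.mul hr, ?_⟩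
    rw [mul_coeff_zero, hs0, hr0, one_mul]

theorem rel_large_lt {S : Multiset L} (h : ∀ b ∈ S, 1 < V.valuation b) : Rel V (qol S) 1 := by
  induction S using Multiset.induction_on with
  | empty => rw [qol, Multiset.map_zero, Multiset.prod_zero]; exact Rel.one
  | cons b S ih =>
    rw [qol, Multiset.map_cons, Multiset.prod_cons]
    have := (rel_inv_lt (h b (Multiset.mem_cons_self b S))).mul
      (ih fun c hc => h c (Multiset.mem_cons_of_mem hc))
    rwa [one_mul] at this

theorem val_prod_neg (S : Multiset L) :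
    V.valuation ((S.map fun b => -b).prod) = (S.map fun b => V.valuation b).prod := by
  induction S using Multiset.induction_on with
  | empty => rw [Multiset.map_zero, Multiset.prod_zero, Multiset.map_zero, Multiset.prod_zero,
      map_one]
  | cons b S ih =>
    rw [Multiset.map_cons, Multiset.prod_cons, Multiset.map_cons, Multiset.prod_cons, map_mul, ih,
      Valuation.map_neg]

/-- the coefficient at a break of the Newton polygon, threshold one -/
theorem val_coeff_one {S T : Multiset L} (hS : ∀ b ∈ S, 1 ≤ V.valuation b)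
    (hT : ∀ b ∈ T, V.valuation b ≤ 1)
    (hST : (∀ b ∈ S, 1 < V.valuation b) ∨ (∀ b ∈ T, V.valuation b < 1)) :
    V.valuation ((pol (S + T)).coeff T.card) = (S.map fun b => V.valuation b).prod := by
  have hS0 : ∀ b ∈ S, b ≠ 0 := by
    rintro b hb rfl
    have := hS 0 hb
    rw [map_zero] at this
    exact absurd this (by simp)
  rw [pol_add, pol_eq hS0, mul_assoc, coeff_C_mul, map_mul, val_prod_neg]
  have h1 : V.valuation ((qol S * pol T).coeff T.card) = 1 := by
    rcases hST with h | h
    · obtain ⟨r, hr, hm, hd⟩ := rel_small hT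
      refine val_of_rel ((rel_large_lt h).mul hr) ?_
      rw [one_mul, ← hd, hm.coeff_natDegree]
      exact one_ne_zero
    · obtain ⟨r, hr, hr0⟩ := rel_large hS
      refine val_of_rel (hr.mul (rel_small_lt h)) ?_
      rw [coeff_mul_X_pow', if_pos le_rfl, Nat.sub_self, hr0]
      exact one_ne_zero
  rw [h1, mul_one]

theorem pol_scale {c : L} (hc : c ≠ 0) (S : Multiset L) (n : ℕ) :
    (pol S).coeff n * c ^ n = c ^ S.card * (pol (S.map fun b => b / c)).coeff n := by
  have h1 : (pol S).comp (C c * X) = C (c ^ S.card) * pol (S.map fun b => b / c) := by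
    induction S using Multiset.induction_on with
    | empty => rw [pol_zero, one_comp, Multiset.card_zero, pow_zero, map_one, one_mul,
        Multiset.map_zero, pol_zero]
    | cons b S ih =>
      rw [pol_cons, mul_comp, ih, Multiset.card_cons, Multiset.map_cons, pol_cons, sub_comp,
        X_comp, C_comp, pow_succ', map_mul]
      have h2 : (C c * X - C b : L[X]) = C c * (X - C (b / c)) := by
        rw [mul_sub, ← map_mul, mul_div_cancel₀ _ hc]
      rw [h2]
      ring
  have h2 := congrArg (fun P => P.coeff n) h1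
  simp only [coeff_C_mul] at h2
  rw [comp_C_mul_X_coeff] at h2
  exact h2

/-- the coefficient at a break of the Newton polygon -/
theorem val_coeff {c : L} (hc : c ≠ 0) {S T : Multiset L}
    (hS : ∀ b ∈ S, V.valuation c ≤ V.valuation b) (hT : ∀ b ∈ T, V.valuation b ≤ V.valuation c)
    (hST : (∀ b ∈ S, V.valuation c < V.valuation b) ∨ (∀ b ∈ T, V.valuation b < V.valuation c)) :
    V.valuation ((pol (S + T)).coeff T.card) = (S.map fun b => V.valuation b).prod := by
  have hvc : V.valuation c ≠ 0 := (Valuation.ne_zero_iff _).2 hc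
  have hvc' : 0 < V.valuation c := zero_lt_iff.2 hvc
  have h1 := pol_scale hc (S + T) T.card
  rw [Multiset.map_add] at h1
  have h2 := val_coeff_one (V := V) (S := S.map fun b => b / c) (T := T.map fun b => b / c)
    (by
      intro b hb
      obtain ⟨y, hy, rfl⟩ := Multiset.mem_map.1 hb
      rw [map_div₀, one_le_div₀ hvc']
      exact hS y hy)
    (by
      intro b hb
      obtain ⟨y, hy, rfl⟩ := Multiset.mem_map.1 hb
      rw [map_div₀, div_le_one₀ hvc']
      exact hT y hy)
    (by
      rcases hST with h | h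
      · left
        intro b hb
        obtain ⟨y, hy, rfl⟩ := Multiset.mem_map.1 hb
        rw [map_div₀, one_lt_div₀ hvc']
        exact h y hy
      · right
        intro b hb
        obtain ⟨y, hy, rfl⟩ := Multiset.mem_map.1 hb
        rw [map_div₀, div_lt_one₀ hvc']
        exact h y hy)
  rw [Multiset.card_map] at h2
  have h3 := congrArg V.valuation h1
  rw [map_mul, map_mul, map_pow, map_pow, h2, Multiset.map_map, Multiset.card_add, pow_add] at h3
  have h4 : (S.map ((fun b => V.valuation b) ∘ fun b => b / c)).prod * V.valuation c ^ S.card =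
      (S.map fun b => V.valuation b).prod := by
    clear h1 h2 h3 hS hST
    induction S using Multiset.induction_on with
    | empty => simp
    | cons b S ih =>
      rw [Multiset.map_cons, Multiset.prod_cons, Multiset.map_cons, Multiset.prod_cons,
        Multiset.card_cons, pow_succ, ← ih, Function.comp_apply, map_div₀]
      have : V.valuation b / V.valuation c * (S.map ((fun b => V.valuation b) ∘
          fun b => b / c)).prod * (V.valuation c ^ S.card * V.valuation c) =
          (V.valuation b / V.valuation c * V.valuation c) * ((S.map ((fun b => V.valuation b) ∘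
          fun b => b / c)).prod * V.valuation c ^ S.card) := by
        ac_rfl
      rw [this, div_mul_cancel₀ _ hvc]
  have h5 : V.valuation c ^ T.card ≠ 0 := pow_ne_zero _ hvc
  apply mul_right_cancel₀ h5
  rw [h3, ← h4]
  ac_rfl

end

end Pool.Agent.Helper73.HD
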