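import Pool.Agent.Helper73.KT.Core

/-!
# Algebraic numbers of weight zero which are integral at all places
-/

open Polynomial

namespace Pool.Agent.Helper73.HD

open Pool.Agent.Helper73.KT

section

variable {L : Type*} [Field L] [CharZero L]

/-- Kronecker's theorem for a quotient `α / q`. -/
theorem root_of_unity {α : L} {q : ℕ} (hq : 0 < q) (hint : IsIntegral ℤ (α / q))
    (hw : ∀ z : ℂ, aeval z (minpoly ℚ α) = 0 → ‖z‖ = q) : ∃ N : ℕ, 0 < N ∧ α ^ N = (q : L) ^ N := by
  have hq0 : (q : L) ≠ 0 := Nat.cast_ne_zero.2 hq.ne'
  set β : L := α / q with hβ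
  have hα : α = q * β := by rw [hβ, mul_div_cancel₀ _ hq0]
  have hβQ : IsIntegral ℚ β := hint.tower_top
  let K := IntermediateField.adjoin ℚ {β}
  have : FiniteDimensional ℚ K := IntermediateField.adjoin.finiteDimensional hβQ
  have : NumberField K := { to_charZero := inferInstance, to_finiteDimensional := this }
  let x : K := IntermediateField.AdjoinSimple.gen ℚ β
  have hx : algebraMap K L x = β := IntermediateField.AdjoinSimple.algebraMap_gen ℚ β
  have hxi : IsIntegral ℤ x := by
    rw [← isIntegral_algebraMap_iff (algebraMap K L).injective, hx]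
    exact hint
  have hnorm : ∀ φ : K →+* ℂ, ‖φ x‖ = 1 := by
    intro φ
    have h1 : aeval ((q : K) * x) (minpoly ℚ α) = 0 := by
      apply (algebraMap K L).injective
      rw [map_zero, ← aeval_algebraMap_apply, map_mul, map_natCast, hx, ← hα, minpoly.aeval]
    have h2 : aeval (φ ((q : K) * x)) (minpoly ℚ α) = 0 := by
      have h3 := congrArg φ h1
      rw [map_zero] at h3
      rw [← h3, aeval_def, aeval_def, hom_eval₂]
      congr 1
      exact Subsingleton.elim _ _
    have h3 := hw _ h2
    rw [map_mul, map_natCast, norm_mul, Complex.norm_natCast] at h3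
    have hqR : (q : ℝ) ≠ 0 := Nat.cast_ne_zero.2 hq.ne'
    exact mul_left_cancel₀ hqR (by rw [h3, mul_one])
  obtain ⟨N, hN, hxN⟩ := NumberField.Embeddings.pow_eq_one_of_norm_eq_one K ℂ hxi hnorm
  refine ⟨N, hN, ?_⟩
  rw [hα, mul_pow, ← hx, ← map_pow, hxN, map_one, mul_one]

omit [CharZero L] in
/-- a number which is integral at all maximal ideals is integral -/
theorem integral_of_local {x : L} (h : ∀ M : Ideal (integralClosure ℤ L), M.IsMaximal →
    ∃ s : integralClosure ℤ L, s ∉ M ∧ IsIntegral ℤ ((s : L) * x)) : IsIntegral ℤ x := by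
  let I : Ideal (integralClosure ℤ L) :=
    { carrier := {s | IsIntegral ℤ ((s : L) * x)}
      add_mem' := by
        intro a b ha hb
        change IsIntegral ℤ (((a + b : integralClosure ℤ L) : L) * x)
        have h1 : ((a + b : integralClosure ℤ L) : L) * x = a * x + b * x := by
          push_cast
          ring
        rw [h1]
        exact IsIntegral.add ha hb
      zero_mem' := by
        change IsIntegral ℤ (((0 : integralClosure ℤ L) : L) * x)
        have h1 : ((0 : integralClosure ℤ L) : L) * x = 0 := by
          push_cast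
          ring
        rw [h1]
        exact isIntegral_zero
      smul_mem' := by
        intro c a ha
        change IsIntegral ℤ (((c • a : integralClosure ℤ L) : L) * x)
        have h1 : ((c • a : integralClosure ℤ L) : L) * x = c * (a * x) := by
          rw [smul_eq_mul]
          push_cast
          ring
        rw [h1]
        exact IsIntegral.mul c.2 ha }
  have hI : I = ⊤ := by
    by_contra hne
    obtain ⟨M, hM, hle⟩ := Ideal.exists_le_maximal I hne
    obtain ⟨s, hs, hsx⟩ := h M hM
    exact hs (hle hsx)
  have h1 : (1 : integralClosure ℤ L) ∈ I := by rw [hI]; exact Submodule.mem_top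
  have h2 : IsIntegral ℤ (((1 : integralClosure ℤ L) : L) * x) := h1
  have h3 : ((1 : integralClosure ℤ L) : L) * x = x := by push_cast; ring
  rw [h3] at h2
  exact h2

end

end Pool.Agent.Helper73.HD
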